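import Mathlib

set_option autoImplicit false

universe u v

namespace Pool.Agent.H82.BPADelta

/-- Closed terms of `BPA*_δ` over the action set `A`: atomic actions, the deadlock constant `δ`,
alternative composition `p + q`, sequential composition `p · q`, and binary Kleene star `p * q`. -/
inductive Proc (A : Type u) : Type u
  | act : A → Proc A
  | delta : Proc A
  | add : Proc A → Proc A → Proc A
  | mul : Proc A → Proc A → Proc A
  | star : Proc A → Proc A → Proc A

/-- Open terms of `BPA*_δ` over the action set `A` with variables from `V`. -/
inductive Term (A : Type u) (V : Type v) : Type (max u v)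
  | var : V → Term A V
  | act : A → Term A V
  | delta : Term A V
  | add : Term A V → Term A V → Term A V
  | mul : Term A V → Term A V → Term A V
  | star : Term A V → Term A V → Term A V

section Semantics

variable {A : Type u}

/-- `Done p a` is the transition `p →ᵃ √` (successful termination by an `a`-step). -/
inductive Done : Proc A → A → Prop
  | act (a : A) : Done (.act a) a
  | addL {p q : Proc A} {a : A} : Done p a → Done (.add p q) a
  | addR {p q : Proc A} {a : A} : Done q a → Done (.add p q) a
  | starR {p q : Proc A} {a : A} : Done q a → Done (.star p q) a

/-- `Step p a p'` is the transition `p →ᵃ p'` (an `a`-step to the process `p'`).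
The transitions of `p * q` are those of `(p · (p * q)) + q`. -/
inductive Step : Proc A → A → Proc A → Prop
  | addL {p q p' : Proc A} {a : A} : Step p a p' → Step (.add p q) a p'
  | addR {p q q' : Proc A} {a : A} : Step q a q' → Step (.add p q) a q'
  | mulL {p q p' : Proc A} {a : A} : Step p a p' → Step (.mul p q) a (.mul p' q)
  | mulR {p q : Proc A} {a : A} : Done p a → Step (.mul p q) a q
  | starL {p q p' : Proc A} {a : A} : Step p a p' → Step (.star p q) a (.mul p' (.star p q))
  | starD {p q : Proc A} {a : A} : Done p a → Step (.star p q) a (.star p q)
  | starR {p q q' : Proc A} {a : A} : Step q a q' → Step (.star p q) a q'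

/-- A (strong) bisimulation: a symmetric relation satisfying the transfer conditions. -/
def IsBisimulation (R : Proc A → Proc A → Prop) : Prop :=
  (∀ p q, R p q → R q p) ∧
  (∀ p q, R p q → ∀ a p', Step p a p' → ∃ q', Step q a q' ∧ R p' q') ∧
  (∀ p q, R p q → ∀ a, Done p a → Done q a)

/-- Strong bisimilarity, the largest bisimulation. -/
def Bisimilar (p q : Proc A) : Prop :=
  ∃ R : Proc A → Proc A → Prop, IsBisimulation R ∧ R p q

end Semantics

section Equational

variable {A : Type u} {V : Type v}

/-- Application of a closed substitution to an open term. -/
def Term.close (σ : V → Proc A) : Term A V → Proc A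
  | .var x => σ x
  | .act a => .act a
  | .delta => .delta
  | .add s t => .add (s.close σ) (t.close σ)
  | .mul s t => .mul (s.close σ) (t.close σ)
  | .star s t => .star (s.close σ) (t.close σ)

/-- Application of an (open) substitution to an open term. -/
def Term.subst (σ : V → Term A V) : Term A V → Term A V
  | .var x => σ x
  | .act a => .act a
  | .delta => .delta
  | .add s t => .add (s.subst σ) (t.subst σ)
  | .mul s t => .mul (s.subst σ) (t.subst σ)
  | .star s t => .star (s.subst σ) (t.subst σ)

/-- The set of variables occurring in an open term. -/
def Term.vars : Term A V → Set V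
  | .var x => {x}
  | .act _ => ∅
  | .delta => ∅
  | .add s t => s.vars ∪ t.vars
  | .mul s t => s.vars ∪ t.vars
  | .star s t => s.vars ∪ t.vars

/-- The equation `t = u` is valid: all its closed instances hold modulo bisimilarity. -/
def Valid (t u : Term A V) : Prop :=
  ∀ σ : V → Proc A, Bisimilar (t.close σ) (u.close σ)

/-- `Derivable E t u`: the equation `t = u` is derivable in equational logic from the set of
equations `E` (an equation being a pair of open terms), by means of the rules: axiom,
substitution, reflexivity, symmetry, transitivity and congruence. -/
inductive Derivable (E : Set (Term A V × Term A V)) : Term A V → Term A V → Prop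
  | ax {t u : Term A V} : (t, u) ∈ E → Derivable E t u
  | subst {t u : Term A V} (σ : V → Term A V) :
      Derivable E t u → Derivable E (t.subst σ) (u.subst σ)
  | refl (t : Term A V) : Derivable E t t
  | symm {t u : Term A V} : Derivable E t u → Derivable E u t
  | trans {t u w : Term A V} : Derivable E t u → Derivable E u w → Derivable E t w
  | add {t t' u u' : Term A V} :
      Derivable E t t' → Derivable E u u' → Derivable E (.add t u) (.add t' u')
  | mul {t t' u u' : Term A V} :
      Derivable E t t' → Derivable E u u' → Derivable E (.mul t u) (.mul t' u')
  | star {t t' u u' : Term A V} :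
      Derivable E t t' → Derivable E u u' → Derivable E (.star t u) (.star t' u')

/-- `E` is an equational axiomatization of bisimilarity over `BPA*_δ`: for all open terms `t`, `u`,
the equation `t = u` is derivable from `E` iff it is valid. -/
def IsAxiomatization (E : Set (Term A V × Term A V)) : Prop :=
  ∀ t u : Term A V, Derivable E t u ↔ Valid t u

/-- At least two distinct variables occur in the equation `e`. -/
def Multivariable (e : Term A V × Term A V) : Prop :=
  (e.1.vars ∪ e.2.vars).Nontrivial

end Equational

end Pool.Agent.H82.BPADelta
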