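import Mathlib
import Pool.Agent.H82.BPADelta.Defs

set_option autoImplicit false

universe u v

namespace Pool.Agent.H82.BPADelta

section Bisim

variable {A : Type u}

theorem Bisimilar.isBisimulation : IsBisimulation (A := A) Bisimilar := by
  refine ⟨?_, ?_, ?_⟩
  · rintro p q ⟨R, hR, hpq⟩
    exact ⟨R, hR, hR.1 _ _ hpq⟩
  · rintro p q ⟨R, hR, hpq⟩ a p' hp
    obtain ⟨q', hq', h⟩ := hR.2.1 _ _ hpq a p' hp
    exact ⟨q', hq', R, hR, h⟩
  · rintro p q ⟨R, hR, hpq⟩ a hp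
    exact hR.2.2 _ _ hpq a hp

theorem Bisimilar.symm {p q : Proc A} (h : Bisimilar p q) : Bisimilar q p :=
  Bisimilar.isBisimulation.1 _ _ h

theorem Bisimilar.step {p q : Proc A} (h : Bisimilar p q) {a : A} {p' : Proc A}
    (hs : Step p a p') : ∃ q', Step q a q' ∧ Bisimilar p' q' :=
  Bisimilar.isBisimulation.2.1 _ _ h _ _ hs

theorem Bisimilar.done {p q : Proc A} (h : Bisimilar p q) {a : A}
    (hs : Done p a) : Done q a :=
  Bisimilar.isBisimulation.2.2 _ _ h _ hs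

theorem Bisimilar.refl (p : Proc A) : Bisimilar p p :=
  ⟨Eq, ⟨fun _ _ h => h.symm, fun _ _ h _ p' hp => ⟨p', h ▸ hp, rfl⟩,
    fun _ _ h _ hp => h ▸ hp⟩, rfl⟩

theorem Bisimilar.trans {p q r : Proc A} (h₁ : Bisimilar p q) (h₂ : Bisimilar q r) :
    Bisimilar p r := by
  refine ⟨fun p r => ∃ q, Bisimilar p q ∧ Bisimilar q r, ⟨?_, ?_, ?_⟩, q, h₁, h₂⟩
  · rintro p r ⟨q, h₁, h₂⟩
    exact ⟨q, h₂.symm, h₁.symm⟩
  · rintro p r ⟨q, h₁, h₂⟩ a p' hp
    obtain ⟨q', hq', h₁'⟩ := h₁.step hp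
    obtain ⟨r', hr', h₂'⟩ := h₂.step hq'
    exact ⟨r', hr', q', h₁', h₂'⟩
  · rintro p r ⟨q, h₁, h₂⟩ a hp
    exact h₂.done (h₁.done hp)

/-- Bisimulation up to bisimilarity (transfer conditions for both directions). -/
theorem Bisimilar.of_upto (R : Proc A → Proc A → Prop)
    (hsl : ∀ p q, R p q → ∀ a p', Step p a p' → ∃ q', Step q a q' ∧
      ∃ p'' q'', Bisimilar p' p'' ∧ R p'' q'' ∧ Bisimilar q'' q')
    (hsr : ∀ p q, R p q → ∀ a q', Step q a q' → ∃ p', Step p a p' ∧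
      ∃ p'' q'', Bisimilar p' p'' ∧ R p'' q'' ∧ Bisimilar q'' q')
    (hd : ∀ p q, R p q → ∀ a, Done p a ↔ Done q a)
    {p q : Proc A} (h : R p q) : Bisimilar p q := by
  refine ⟨fun p q => (∃ p' q', Bisimilar p p' ∧ R p' q' ∧ Bisimilar q' q) ∨
    (∃ p' q', Bisimilar p q' ∧ R p' q' ∧ Bisimilar p' q), ⟨?_, ?_, ?_⟩,
    Or.inl ⟨p, q, Bisimilar.refl _, h, Bisimilar.refl _⟩⟩
  · rintro p q (⟨p', q', h₁, h₂, h₃⟩ | ⟨p', q', h₁, h₂, h₃⟩)
    · exact Or.inr ⟨p', q', h₃.symm, h₂, h₁.symm⟩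
    · exact Or.inl ⟨p', q', h₃.symm, h₂, h₁.symm⟩
  · rintro p q (⟨p', q', h₁, h₂, h₃⟩ | ⟨p', q', h₁, h₂, h₃⟩) a r hr
    · obtain ⟨r', hr', h₁'⟩ := h₁.step hr
      obtain ⟨s', hs', p'', q'', k₁, k₂, k₃⟩ := hsl _ _ h₂ _ _ hr'
      obtain ⟨s, hs, h₃'⟩ := h₃.step hs'
      exact ⟨s, hs, Or.inl ⟨p'', q'', h₁'.trans k₁, k₂, k₃.trans h₃'⟩⟩
    · obtain ⟨r', hr', h₁'⟩ := h₁.step hr
      obtain ⟨s', hs', p'', q'', k₁, k₂, k₃⟩ := hsr _ _ h₂ _ _ hr'
      obtain ⟨s, hs, h₃'⟩ := h₃.step hs'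
      exact ⟨s, hs, Or.inr ⟨p'', q'', h₁'.trans k₃.symm, k₂, k₁.symm.trans h₃'⟩⟩
  · rintro p q (⟨p', q', h₁, h₂, h₃⟩ | ⟨p', q', h₁, h₂, h₃⟩) a hp
    · exact h₃.done ((hd _ _ h₂ a).1 (h₁.done hp))
    · exact h₃.done ((hd _ _ h₂ a).2 (h₁.done hp))

/-- A version without up-to. -/
theorem Bisimilar.of_rel (R : Proc A → Proc A → Prop)
    (hsl : ∀ p q, R p q → ∀ a p', Step p a p' → ∃ q', Step q a q' ∧ (R p' q' ∨ Bisimilar p' q'))
    (hsr : ∀ p q, R p q → ∀ a q', Step q a q' → ∃ p', Step p a p' ∧ (R p' q' ∨ Bisimilar p' q'))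
    (hd : ∀ p q, R p q → ∀ a, Done p a ↔ Done q a)
    {p q : Proc A} (h : R p q) : Bisimilar p q := by
  refine Bisimilar.of_upto (fun p q => R p q ∨ Bisimilar p q) ?_ ?_ ?_ (Or.inl h)
  · rintro p q (h | h) a p' hp
    · obtain ⟨q', hq', h'⟩ := hsl _ _ h _ _ hp
      exact ⟨q', hq', p', q', Bisimilar.refl _, h', Bisimilar.refl _⟩
    · obtain ⟨q', hq', h'⟩ := h.step hp
      exact ⟨q', hq', p', q', Bisimilar.refl _, Or.inr h', Bisimilar.refl _⟩
  · rintro p q (h | h) a q' hq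
    · obtain ⟨p', hp', h'⟩ := hsr _ _ h _ _ hq
      exact ⟨p', hp', p', q', Bisimilar.refl _, h', Bisimilar.refl _⟩
    · obtain ⟨p', hp', h'⟩ := h.symm.step hq
      exact ⟨p', hp', p', q', Bisimilar.refl _, Or.inr h'.symm, Bisimilar.refl _⟩
  · rintro p q (h | h) a
    · exact hd _ _ h a
    · exact ⟨h.done, h.symm.done⟩

/-- Two processes with bisimilar (matching) transitions are bisimilar. -/
theorem Bisimilar.of_trans {p q : Proc A}
    (hsl : ∀ a p', Step p a p' → ∃ q', Step q a q' ∧ Bisimilar p' q')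
    (hsr : ∀ a q', Step q a q' → ∃ p', Step p a p' ∧ Bisimilar p' q')
    (hd : ∀ a, Done p a ↔ Done q a) : Bisimilar p q := by
  refine Bisimilar.of_rel (fun x y => x = p ∧ y = q) ?_ ?_ ?_ ⟨rfl, rfl⟩
  · rintro _ _ ⟨rfl, rfl⟩ a p' hp
    obtain ⟨q', h₁, h₂⟩ := hsl _ _ hp
    exact ⟨q', h₁, Or.inr h₂⟩
  · rintro _ _ ⟨rfl, rfl⟩ a p' hp
    obtain ⟨q', h₁, h₂⟩ := hsr _ _ hp
    exact ⟨q', h₁, Or.inr h₂⟩
  · rintro _ _ ⟨rfl, rfl⟩ a
    exact hd a

/-! ### Inversion lemmas -/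

theorem done_act {a b : A} : Done (.act a) b ↔ b = a := by
  constructor
  · intro h; cases h; rfl
  · rintro rfl; exact .act _

theorem done_delta {b : A} : ¬ Done (.delta) b := by
  intro h; cases h

theorem done_add {p q : Proc A} {b : A} : Done (.add p q) b ↔ Done p b ∨ Done q b := by
  constructor
  · intro h
    cases h with
    | addL h => exact Or.inl h
    | addR h => exact Or.inr h
  · rintro (h | h)
    · exact .addL h
    · exact .addR h

theorem done_mul {p q : Proc A} {b : A} : ¬ Done (.mul p q) b := by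
  intro h; cases h

theorem done_star {p q : Proc A} {b : A} : Done (.star p q) b ↔ Done q b := by
  constructor
  · intro h
    cases h with
    | starR h => exact h
  · exact .starR

theorem step_act {a b : A} {r : Proc A} : ¬ Step (.act a) b r := by
  intro h; cases h

theorem step_delta {b : A} {r : Proc A} : ¬ Step (.delta) b r := by
  intro h; cases h

theorem step_add {p q r : Proc A} {b : A} : Step (.add p q) b r ↔ Step p b r ∨ Step q b r := by
  constructor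
  · intro h
    cases h with
    | addL h => exact Or.inl h
    | addR h => exact Or.inr h
  · rintro (h | h)
    · exact .addL h
    · exact .addR h

theorem step_mul {p q r : Proc A} {b : A} :
    Step (.mul p q) b r ↔ (∃ p', Step p b p' ∧ r = .mul p' q) ∨ (Done p b ∧ r = q) := by
  constructor
  · intro h
    cases h with
    | mulL h => exact Or.inl ⟨_, h, rfl⟩
    | mulR h => exact Or.inr ⟨h, rfl⟩
  · rintro (⟨p', h, rfl⟩ | ⟨h, rfl⟩)
    · exact .mulL h
    · exact .mulR h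

theorem step_star {p q r : Proc A} {b : A} :
    Step (.star p q) b r ↔ (∃ p', Step p b p' ∧ r = .mul p' (.star p q)) ∨
      (Done p b ∧ r = .star p q) ∨ Step q b r := by
  constructor
  · intro h
    cases h with
    | starL h => exact Or.inl ⟨_, h, rfl⟩
    | starD h => exact Or.inr (Or.inl ⟨h, rfl⟩)
    | starR h => exact Or.inr (Or.inr h)
  · rintro (⟨p', h, rfl⟩ | ⟨h, rfl⟩ | h)
    · exact .starL h
    · exact .starD h
    · exact .starR h

/-! ### Congruence -/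

theorem Bisimilar.add {p p' q q' : Proc A} (h₁ : Bisimilar p p') (h₂ : Bisimilar q q') :
    Bisimilar (.add p q) (.add p' q') := by
  refine Bisimilar.of_trans ?_ ?_ ?_
  · intro a r hr
    rw [step_add] at hr
    rcases hr with hr | hr
    · obtain ⟨r', hr', h⟩ := h₁.step hr
      exact ⟨r', .addL hr', h⟩
    · obtain ⟨r', hr', h⟩ := h₂.step hr
      exact ⟨r', .addR hr', h⟩
  · intro a r hr
    rw [step_add] at hr
    rcases hr with hr | hr
    · obtain ⟨r', hr', h⟩ := h₁.symm.step hr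
      exact ⟨r', .addL hr', h.symm⟩
    · obtain ⟨r', hr', h⟩ := h₂.symm.step hr
      exact ⟨r', .addR hr', h.symm⟩
  · intro a
    rw [done_add, done_add]
    exact or_congr ⟨h₁.done, h₁.symm.done⟩ ⟨h₂.done, h₂.symm.done⟩

theorem Bisimilar.mul {p p' q q' : Proc A} (h₁ : Bisimilar p p') (h₂ : Bisimilar q q') :
    Bisimilar (.mul p q) (.mul p' q') := by
  refine Bisimilar.of_rel (fun x y => ∃ r r', x = .mul r q ∧ y = .mul r' q' ∧ Bisimilar r r')
    ?_ ?_ ?_ ⟨p, p', rfl, rfl, h₁⟩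
  · rintro _ _ ⟨r, r', rfl, rfl, h⟩ a s hs
    rw [step_mul] at hs
    rcases hs with ⟨t, ht, rfl⟩ | ⟨hd, rfl⟩
    · obtain ⟨t', ht', h'⟩ := h.step ht
      exact ⟨_, .mulL ht', Or.inl ⟨t, t', rfl, rfl, h'⟩⟩
    · exact ⟨_, .mulR (h.done hd), Or.inr h₂⟩
  · rintro _ _ ⟨r, r', rfl, rfl, h⟩ a s hs
    rw [step_mul] at hs
    rcases hs with ⟨t, ht, rfl⟩ | ⟨hd, rfl⟩
    · obtain ⟨t', ht', h'⟩ := h.symm.step ht
      exact ⟨_, .mulL ht', Or.inl ⟨t', t, rfl, rfl, h'.symm⟩⟩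
    · exact ⟨_, .mulR (h.symm.done hd), Or.inr h₂⟩
  · rintro _ _ ⟨r, r', rfl, rfl, h⟩ a
    exact iff_of_false done_mul done_mul

/-- Associativity of sequential composition. -/
theorem bisim_mul_assoc (p q r : Proc A) :
    Bisimilar (.mul (.mul p q) r) (.mul p (.mul q r)) := by
  refine Bisimilar.of_rel (fun x y => ∃ s, x = .mul (.mul s q) r ∧ y = .mul s (.mul q r))
    ?_ ?_ ?_ ⟨p, rfl, rfl⟩
  · rintro _ _ ⟨s, rfl, rfl⟩ a t ht
    rw [step_mul] at ht
    rcases ht with ⟨t', ht', rfl⟩ | ⟨hd, rfl⟩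
    · rw [step_mul] at ht'
      rcases ht' with ⟨t'', ht'', rfl⟩ | ⟨hd, rfl⟩
      · exact ⟨_, .mulL ht'', Or.inl ⟨_, rfl, rfl⟩⟩
      · exact ⟨_, .mulR hd, Or.inr (Bisimilar.refl _)⟩
    · exact absurd hd done_mul
  · rintro _ _ ⟨s, rfl, rfl⟩ a t ht
    rw [step_mul] at ht
    rcases ht with ⟨t', ht', rfl⟩ | ⟨hd, rfl⟩
    · exact ⟨_, .mulL (.mulL ht'), Or.inl ⟨_, rfl, rfl⟩⟩
    · exact ⟨_, .mulL (.mulR hd), Or.inr (Bisimilar.refl _)⟩
  · rintro _ _ ⟨s, rfl, rfl⟩ a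
    exact iff_of_false done_mul done_mul

/-- Right distributivity. -/
theorem bisim_add_mul (p q r : Proc A) :
    Bisimilar (.mul (.add p q) r) (.add (.mul p r) (.mul q r)) := by
  refine Bisimilar.of_trans ?_ ?_ ?_
  · intro a s hs
    rw [step_mul] at hs
    rcases hs with ⟨t, ht, rfl⟩ | ⟨hd, rfl⟩
    · rw [step_add] at ht
      rcases ht with ht | ht
      · exact ⟨_, .addL (.mulL ht), Bisimilar.refl _⟩
      · exact ⟨_, .addR (.mulL ht), Bisimilar.refl _⟩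
    · rw [done_add] at hd
      rcases hd with hd | hd
      · exact ⟨_, .addL (.mulR hd), Bisimilar.refl _⟩
      · exact ⟨_, .addR (.mulR hd), Bisimilar.refl _⟩
  · intro a s hs
    rw [step_add] at hs
    rcases hs with hs | hs
    · rw [step_mul] at hs
      rcases hs with ⟨t, ht, rfl⟩ | ⟨hd, rfl⟩
      · exact ⟨_, .mulL (.addL ht), Bisimilar.refl _⟩
      · exact ⟨_, .mulR (.addL hd), Bisimilar.refl _⟩
    · rw [step_mul] at hs
      rcases hs with ⟨t, ht, rfl⟩ | ⟨hd, rfl⟩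
      · exact ⟨_, .mulL (.addR ht), Bisimilar.refl _⟩
      · exact ⟨_, .mulR (.addR hd), Bisimilar.refl _⟩
  · intro a
    rw [done_add]
    exact iff_of_false done_mul (fun h => h.elim done_mul done_mul)

/-- `δ` is neutral for `+`. -/
theorem bisim_add_delta (p : Proc A) : Bisimilar (.add p .delta) p := by
  refine Bisimilar.of_trans ?_ ?_ ?_
  · intro a s hs
    rw [step_add] at hs
    exact ⟨s, hs.resolve_right step_delta, Bisimilar.refl _⟩
  · intro a s hs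
    exact ⟨s, .addL hs, Bisimilar.refl _⟩
  · intro a
    rw [done_add]
    exact or_iff_left done_delta

/-- Commutativity of `+`. -/
theorem bisim_add_comm (p q : Proc A) : Bisimilar (.add p q) (.add q p) := by
  refine Bisimilar.of_trans ?_ ?_ ?_
  · intro a s hs
    rw [step_add] at hs
    exact ⟨s, step_add.2 hs.symm, Bisimilar.refl _⟩
  · intro a s hs
    rw [step_add] at hs
    exact ⟨s, step_add.2 hs.symm, Bisimilar.refl _⟩
  · intro a
    rw [done_add, done_add]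
    exact or_comm

/-- Unfolding of the star. -/
theorem bisim_star (p q : Proc A) :
    Bisimilar (.star p q) (.add (.mul p (.star p q)) q) := by
  refine Bisimilar.of_trans ?_ ?_ ?_
  · intro a s hs
    rw [step_star] at hs
    refine ⟨s, ?_, Bisimilar.refl _⟩
    rw [step_add, step_mul]
    rcases hs with h | h | h
    · exact Or.inl (Or.inl h)
    · exact Or.inl (Or.inr h)
    · exact Or.inr h
  · intro a s hs
    refine ⟨s, ?_, Bisimilar.refl _⟩
    rw [step_add, step_mul] at hs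
    rw [step_star]
    rcases hs with (h | h) | h
    · exact Or.inl h
    · exact Or.inr (Or.inl h)
    · exact Or.inr (Or.inr h)
  · intro a
    rw [done_star, done_add]
    exact (or_iff_right done_mul).symm

/-- The recursive specification principle: a solution of `z = p · z + r` is `p * r`. -/
theorem bisim_rsp {z p r : Proc A} (h : Bisimilar z (.add (.mul p z) r)) :
    Bisimilar z (.star p r) := by
  refine Bisimilar.of_upto (fun x y => (x = z ∧ y = .star p r) ∨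
    (∃ s, x = .mul s z ∧ y = .mul s (.star p r)) ∨ x = y)
    ?_ ?_ ?_ (Or.inl ⟨rfl, rfl⟩)
  · rintro x y (⟨rfl, rfl⟩ | ⟨s, rfl, rfl⟩ | rfl) a t ht
    · obtain ⟨t', ht', h'⟩ := h.step ht
      rw [step_add, step_mul] at ht'
      rcases ht' with (⟨p', hp', rfl⟩ | ⟨hd, rfl⟩) | ht'
      · exact ⟨_, .starL hp', _, _, h', Or.inr (Or.inl ⟨p', rfl, rfl⟩), Bisimilar.refl _⟩
      · exact ⟨_, .starD hd, _, _, h', Or.inl ⟨rfl, rfl⟩, Bisimilar.refl _⟩
      · exact ⟨_, .starR ht', _, _, h', Or.inr (Or.inr rfl), Bisimilar.refl _⟩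
    · rw [step_mul] at ht
      rcases ht with ⟨t', ht', rfl⟩ | ⟨hd, rfl⟩
      · exact ⟨_, .mulL ht', _, _, Bisimilar.refl _, Or.inr (Or.inl ⟨t', rfl, rfl⟩),
          Bisimilar.refl _⟩
      · exact ⟨_, .mulR hd, _, _, Bisimilar.refl _, Or.inl ⟨rfl, rfl⟩, Bisimilar.refl _⟩
    · exact ⟨_, ht, _, _, Bisimilar.refl _, Or.inr (Or.inr rfl), Bisimilar.refl _⟩
  · rintro x y (⟨rfl, rfl⟩ | ⟨s, rfl, rfl⟩ | rfl) a t ht
    · rw [step_star] at ht
      rcases ht with ⟨p', hp', rfl⟩ | ⟨hd, rfl⟩ | ht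
      · obtain ⟨t', ht', h'⟩ := h.symm.step (.addL (.mulL hp'))
        exact ⟨_, ht', _, _, h'.symm, Or.inr (Or.inl ⟨p', rfl, rfl⟩), Bisimilar.refl _⟩
      · obtain ⟨t', ht', h'⟩ := h.symm.step (.addL (.mulR hd))
        exact ⟨_, ht', _, _, h'.symm, Or.inl ⟨rfl, rfl⟩, Bisimilar.refl _⟩
      · obtain ⟨t', ht', h'⟩ := h.symm.step (.addR ht)
        exact ⟨_, ht', _, _, h'.symm, Or.inr (Or.inr rfl), Bisimilar.refl _⟩
    · rw [step_mul] at ht
      rcases ht with ⟨t', ht', rfl⟩ | ⟨hd, rfl⟩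
      · exact ⟨_, .mulL ht', _, _, Bisimilar.refl _, Or.inr (Or.inl ⟨t', rfl, rfl⟩),
          Bisimilar.refl _⟩
      · exact ⟨_, .mulR hd, _, _, Bisimilar.refl _, Or.inl ⟨rfl, rfl⟩, Bisimilar.refl _⟩
    · exact ⟨_, ht, _, _, Bisimilar.refl _, Or.inr (Or.inr rfl), Bisimilar.refl _⟩
  · rintro x y (⟨rfl, rfl⟩ | ⟨s, rfl, rfl⟩ | rfl) a
    · rw [done_star]
      constructor
      · intro hd
        have := h.done hd
        rw [done_add] at this
        exact this.resolve_left done_mul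
      · intro hd
        exact h.symm.done (.addR hd)
    · exact iff_of_false done_mul done_mul
    · exact Iff.rfl

/-- `(p * q) · r = p * (q · r)`. -/
theorem bisim_star_mul (p q r : Proc A) :
    Bisimilar (.mul (.star p q) r) (.star p (.mul q r)) := by
  apply bisim_rsp
  refine ((bisim_star p q).mul (Bisimilar.refl r)).trans ?_
  refine (bisim_add_mul _ _ _).trans ?_
  exact (bisim_mul_assoc _ _ _).add (Bisimilar.refl _)

end Bisim

end Pool.Agent.H82.BPADelta
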