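import Mathlib
import Pool.Agent.H82.BPADelta.Basic

set_option autoImplicit false

universe u v

open scoped Pointwise

namespace Pool.Agent.H82.BPADelta

section Paths

variable {L : Type u}

/-- Paths labelled with words. -/
inductive Path : Proc L → List L → Proc L → Prop
  | nil (p : Proc L) : Path p [] p
  | cons {p q r : Proc L} {l : L} {w : List L} : Step p l q → Path q w r → Path p (l :: w) r

theorem Path.append {p q r : Proc L} {w w' : List L} (h₁ : Path p w q) (h₂ : Path q w' r) :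
    Path p (w ++ w') r := by
  induction h₁ with
  | nil p => exact h₂
  | cons hs _ ih => exact .cons hs (ih h₂)

theorem Path.mul {p r : Proc L} {w : List L} (h : Path p w r) (q : Proc L) :
    Path (.mul p q) w (.mul r q) := by
  induction h with
  | nil p => exact .nil _
  | cons hs _ ih => exact .cons (.mulL hs) ih

theorem Path.bisim {p q r : Proc L} {w : List L} (h : Path p w r) (hb : Bisimilar p q) :
    ∃ r', Path q w r' ∧ Bisimilar r r' := by
  induction h generalizing q with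
  | nil p => exact ⟨q, .nil _, hb⟩
  | cons hs _ ih =>
    obtain ⟨q', hq', hb'⟩ := hb.step hs
    obtain ⟨r', hr', hb''⟩ := ih hb'
    exact ⟨r', .cons hq' hr', hb''⟩

/-- A set of processes closed under transitions. -/
def Closed (X : Set (Proc L)) : Prop := ∀ r ∈ X, ∀ l r', Step r l r' → r' ∈ X

theorem Path.mem_closed {X : Set (Proc L)} (hX : Closed X) {p r : Proc L} {w : List L}
    (h : Path p w r) (hp : p ∈ X) : r ∈ X := by
  induction h with
  | nil p => exact hp
  | cons hs _ ih => exact ih (hX _ hp _ _ hs)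

/-- Every closed term has finitely many residuals. -/
theorem exists_finite_closed (p : Proc L) : ∃ X : Set (Proc L), X.Finite ∧ p ∈ X ∧ Closed X := by
  induction p with
  | act a =>
    refine ⟨{.act a}, Set.finite_singleton _, rfl, ?_⟩
    rintro r rfl l r' h
    exact absurd h step_act
  | delta =>
    refine ⟨{.delta}, Set.finite_singleton _, rfl, ?_⟩
    rintro r rfl l r' h
    exact absurd h step_delta
  | add p q ihp ihq =>
    obtain ⟨X, hX, hpX, hcX⟩ := ihp
    obtain ⟨Y, hY, hqY, hcY⟩ := ihq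
    refine ⟨{.add p q} ∪ (X ∪ Y), (Set.finite_singleton _).union (hX.union hY),
      Or.inl rfl, ?_⟩
    rintro r (rfl | hr | hr) l r' h
    · rw [step_add] at h
      rcases h with h | h
      · exact Or.inr (Or.inl (hcX _ hpX _ _ h))
      · exact Or.inr (Or.inr (hcY _ hqY _ _ h))
    · exact Or.inr (Or.inl (hcX _ hr _ _ h))
    · exact Or.inr (Or.inr (hcY _ hr _ _ h))
  | mul p q ihp ihq =>
    obtain ⟨X, hX, hpX, hcX⟩ := ihp
    obtain ⟨Y, hY, hqY, hcY⟩ := ihq
    refine ⟨(fun s => .mul s q) '' X ∪ Y, (hX.image _).union hY, Or.inl ⟨p, hpX, rfl⟩, ?_⟩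
    rintro r (⟨s, hs, rfl⟩ | hr) l r' h
    · simp only [step_mul] at h
      rcases h with ⟨s', hs', rfl⟩ | ⟨_, rfl⟩
      · exact Or.inl ⟨s', hcX _ hs _ _ hs', rfl⟩
      · exact Or.inr hqY
    · exact Or.inr (hcY _ hr _ _ h)
  | star p q ihp ihq =>
    obtain ⟨X, hX, hpX, hcX⟩ := ihp
    obtain ⟨Y, hY, hqY, hcY⟩ := ihq
    refine ⟨{.star p q} ∪ ((fun s => .mul s (.star p q)) '' X ∪ Y),
      (Set.finite_singleton _).union ((hX.image _).union hY), Or.inl rfl, ?_⟩
    rintro r (rfl | ⟨s, hs, rfl⟩ | hr) l r' h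
    · rw [step_star] at h
      rcases h with ⟨s', hs', rfl⟩ | ⟨_, rfl⟩ | h
      · exact Or.inr (Or.inl ⟨s', hcX _ hpX _ _ hs', rfl⟩)
      · exact Or.inl rfl
      · exact Or.inr (Or.inr (hcY _ hqY _ _ h))
    · simp only [step_mul] at h
      rcases h with ⟨s', hs', rfl⟩ | ⟨_, rfl⟩
      · exact Or.inr (Or.inl ⟨s', hcX _ hs _ _ hs', rfl⟩)
      · exact Or.inl rfl
    · exact Or.inr (Or.inr (hcY _ hr _ _ h))

end Paths

section Model

variable {L : Type u} {G : Type v} [Group G]

/-- The set of group elements realised by a word. -/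
def wset (e : L → Set G) (w : List L) : Set G := (w.map e).prod

theorem wset_nil (e : L → Set G) : wset e [] = 1 := rfl

theorem wset_cons (e : L → Set G) (l : L) (w : List L) : wset e (l :: w) = e l * wset e w := by
  simp [wset]

theorem wset_append (e : L → Set G) (w w' : List L) :
    wset e (w ++ w') = wset e w * wset e w' := by
  simp [wset]

/-- Paths labelled with group elements. -/
def GPath (e : L → Set G) (p : Proc L) (g : G) (r : Proc L) : Prop :=
  ∃ w, Path p w r ∧ g ∈ wset e w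

theorem GPath.refl (e : L → Set G) (p : Proc L) : GPath e p 1 p :=
  ⟨[], .nil p, by simp [wset_nil]⟩

theorem GPath.trans {e : L → Set G} {p q r : Proc L} {g h : G} (h₁ : GPath e p g q)
    (h₂ : GPath e q h r) : GPath e p (g * h) r := by
  obtain ⟨w, hw, hg⟩ := h₁
  obtain ⟨w', hw', hh⟩ := h₂
  exact ⟨w ++ w', hw.append hw', by rw [wset_append]; exact Set.mul_mem_mul hg hh⟩

theorem GPath.single {e : L → Set G} {p q : Proc L} {l : L} {g : G} (h : Step p l q)
    (hg : g ∈ e l) : GPath e p g q :=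
  ⟨[l], .cons h (.nil _), by simpa [wset] using hg⟩

theorem GPath.mul {e : L → Set G} {p r : Proc L} {g : G} (h : GPath e p g r) (q : Proc L) :
    GPath e (.mul p q) g (.mul r q) := by
  obtain ⟨w, hw, hg⟩ := h
  exact ⟨w, hw.mul q, hg⟩

/-- Case analysis on the first step. -/
theorem GPath.cases_head {e : L → Set G} {p r : Proc L} {g : G} (h : GPath e p g r) :
    (p = r ∧ g = 1) ∨ ∃ l q, ∃ a ∈ e l, ∃ b, Step p l q ∧ GPath e q b r ∧ g = a * b := by
  obtain ⟨w, hw, hg⟩ := h
  cases hw with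
  | nil => exact Or.inl ⟨rfl, by simpa [wset] using hg⟩
  | @cons _ q _ l w' hs hw' =>
    rw [wset_cons] at hg
    obtain ⟨a, ha, b, hb, rfl⟩ := hg
    exact Or.inr ⟨l, q, a, ha, b, hs, ⟨w', hw', hb⟩, rfl⟩

/-- The group elements realised by terminating paths. -/
def tset (e : L → Set G) (p : Proc L) : Set G :=
  {g | ∃ r l a, ∃ b ∈ e l, GPath e p a r ∧ Done r l ∧ g = a * b}

theorem GPath.tset_mem {e : L → Set G} {p r : Proc L} {g h : G} (h₁ : GPath e p g r)
    (h₂ : h ∈ tset e r) : g * h ∈ tset e p := by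
  obtain ⟨s, l, a, b, hb, hs, hd, rfl⟩ := h₂
  exact ⟨s, l, g * a, b, hb, h₁.trans hs, hd, by group⟩

theorem tset_mul_path {e : L → Set G} {p q : Proc L} {g : G} (hg : g ∈ tset e p) :
    GPath e (.mul p q) g q := by
  obtain ⟨r, l, a, b, hb, hs, hd, rfl⟩ := hg
  exact (hs.mul q).trans (GPath.single (.mulR hd) hb)

/-- Decomposition of word paths out of a product. -/
theorem path_mul_dec {p q r : Proc L} {w : List L} (h : Path (.mul p q) w r) :
    (∃ p', r = .mul p' q ∧ Path p w p') ∨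
    (∃ w₁ l w₂ p', w = w₁ ++ l :: w₂ ∧ Path p w₁ p' ∧ Done p' l ∧ Path q w₂ r) := by
  induction w generalizing p with
  | nil =>
    cases h
    exact Or.inl ⟨p, rfl, .nil _⟩
  | cons l w ih =>
    cases h with
    | @cons _ s _ _ _ hs hw =>
      rw [step_mul] at hs
      rcases hs with ⟨p', hp', rfl⟩ | ⟨hd, rfl⟩
      · rcases ih hw with ⟨p'', h₁, h₂⟩ | ⟨w₁, l', w₂, p'', h₁, h₂, h₃, h₄⟩
        · exact Or.inl ⟨p'', h₁, .cons hp' h₂⟩
        · exact Or.inr ⟨l :: w₁, l', w₂, p'', by rw [h₁]; rfl, .cons hp' h₂, h₃, h₄⟩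
      · exact Or.inr ⟨[], l, w, p, rfl, .nil _, hd, hw⟩

/-- Decomposition of group paths out of a product. -/
theorem gpath_mul_dec {e : L → Set G} {p q r : Proc L} {g : G} (h : GPath e (.mul p q) g r) :
    (∃ p', r = .mul p' q ∧ GPath e p g p') ∨
    (∃ a ∈ tset e p, ∃ b, g = a * b ∧ GPath e q b r) := by
  obtain ⟨w, hw, hg⟩ := h
  rcases path_mul_dec hw with ⟨p', h₁, h₂⟩ | ⟨w₁, l', w₂, p'', h₁, h₂, h₃, h₄⟩
  · exact Or.inl ⟨p', h₁, w, h₂, hg⟩
  · rw [h₁, wset_append, wset_cons, ← mul_assoc] at hg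
    obtain ⟨_, ⟨a, ha, c, hc, rfl⟩, b, hb, rfl⟩ := hg
    exact Or.inr ⟨a * c, ⟨p'', l', a, c, hc, ⟨w₁, h₂, ha⟩, h₃, rfl⟩, b, rfl, w₂, h₄, hb⟩

/-- Decomposition of group paths out of a star. -/
theorem gpath_star_dec {e : L → Set G} {p q r : Proc L} {g : G}
    (h : GPath e (.star p q) g r) :
    (r = .star p q ∧ g ∈ Submonoid.closure (tset e p)) ∨
    (∃ p' a b, r = .mul p' (.star p q) ∧ g = a * b ∧ a ∈ Submonoid.closure (tset e p) ∧
      GPath e p b p') ∨
    (∃ a b, g = a * b ∧ a ∈ Submonoid.closure (tset e p) ∧ GPath e q b r) := by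
  obtain ⟨w, hw, hg⟩ := h
  induction hn : w.length using Nat.strong_induction_on generalizing w g with
  | _ n ih =>
  subst hn
  cases hw with
  | nil => exact Or.inl ⟨rfl, by
      have : g = 1 := by simpa [wset] using hg
      rw [this]; exact Submonoid.one_mem _⟩
  | @cons _ s _ l w' hs hw' =>
    rw [wset_cons] at hg
    obtain ⟨a, ha, b, hb, rfl⟩ := hg
    rw [step_star] at hs
    rcases hs with ⟨p', hp', rfl⟩ | ⟨hd, rfl⟩ | hs
    · rcases path_mul_dec hw' with ⟨p'', h₁, h₂⟩ | ⟨w₁, l', w₂, p'', h₁, h₂, h₃, h₄⟩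
      · exact Or.inr (Or.inl ⟨p'', 1, a * b, h₁, by simp, Submonoid.one_mem _,
          (GPath.single hp' ha).trans ⟨w', h₂, hb⟩⟩)
      · rw [h₁, wset_append, wset_cons, ← mul_assoc] at hb
        obtain ⟨_, ⟨c, hc, d, hd, rfl⟩, f, hf, rfl⟩ := hb
        have key : a * (c * d) ∈ tset e p := by
          refine ⟨p'', l', a * c, d, hd, (GPath.single hp' ha).trans ⟨w₁, h₂, hc⟩, h₃, ?_⟩
          group
        have key' := Submonoid.subset_closure key
        have hlen : w₂.length < (l :: w').length := by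
          rw [h₁]; simp; omega
        rcases ih _ hlen w₂ h₄ hf rfl with ⟨h5, h6⟩ | ⟨p1, a1, b1, h5, h6, h7, h8⟩ |
          ⟨a1, b1, h6, h7, h8⟩
        · refine Or.inl ⟨h5, ?_⟩
          have : a * (c * d * f) = (a * (c * d)) * f := by group
          simp only [this]
          exact Submonoid.mul_mem _ key' h6
        · refine Or.inr (Or.inl ⟨p1, (a * (c * d)) * a1, b1, h5, ?_, Submonoid.mul_mem _ key' h7, h8⟩)
          simp only [h6]; group
        · refine Or.inr (Or.inr ⟨(a * (c * d)) * a1, b1, ?_, Submonoid.mul_mem _ key' h7, h8⟩)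
          simp only [h6]; group
    · have key : a ∈ tset e p := ⟨p, l, 1, a, ha, GPath.refl e p, hd, by simp⟩
      have key' := Submonoid.subset_closure key
      rcases ih w'.length (by simp) w' hw' hb rfl with ⟨h5, h6⟩ | ⟨p1, a1, b1, h5, h6, h7, h8⟩ |
          ⟨a1, b1, h6, h7, h8⟩
      · exact Or.inl ⟨h5, Submonoid.mul_mem _ key' h6⟩
      · refine Or.inr (Or.inl ⟨p1, a * a1, b1, h5, ?_, Submonoid.mul_mem _ key' h7, h8⟩)
        simp only [h6]; group
      · refine Or.inr (Or.inr ⟨a * a1, b1, ?_, Submonoid.mul_mem _ key' h7, h8⟩)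
        simp only [h6]; group
    · refine Or.inr (Or.inr ⟨1, a * b, by simp, Submonoid.one_mem _,
          (GPath.single hs ha).trans ⟨w', hw', hb⟩⟩)

theorem gpath_star_self {e : L → Set G} {p q : Proc L} {g : G}
    (h : g ∈ Submonoid.closure (tset e p)) : GPath e (.star p q) g (.star p q) := by
  induction h using Submonoid.closure_induction with
  | mem x hx =>
    obtain ⟨r, l, a, b, hb, hs, hd, rfl⟩ := hx
    rcases hs.cases_head with ⟨rfl, rfl⟩ | ⟨l', q', c, hc, d, hs', hq', rfl⟩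
    · simpa using GPath.single (.starD hd) hb
    · have h1 : GPath e (.star p q) c (.mul q' (.star p q)) := GPath.single (.starL hs') hc
      have h2 := h1.trans (hq'.mul (.star p q))
      exact h2.trans (GPath.single (.mulR hd) hb)
  | one => exact GPath.refl _ _
  | mul x y _ _ hx hy => exact hx.trans hy

/-- Value of the termination component of the model. -/
def tval (e : L → Set G) : Proc L → Set G
  | .act l => e l
  | .delta => ∅
  | .add p q => tval e p ∪ tval e q
  | .mul p q => tval e p * tval e q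
  | .star p q => (Submonoid.closure (tval e p) : Set G) * tval e q

theorem tval_eq_tset (e : L → Set G) (p : Proc L) : tval e p = tset e p := by
  induction p with
  | act l =>
    ext g
    constructor
    · intro hg
      exact ⟨.act l, l, 1, g, hg, GPath.refl _ _, .act _, by simp⟩
    · rintro ⟨r, l', a, b, hb, hs, hd, rfl⟩
      rcases hs.cases_head with ⟨rfl, rfl⟩ | ⟨l', q', c, hc, d, hs', hq', rfl⟩
      · rw [done_act] at hd
        subst hd
        simpa [tval] using hb
      · exact absurd hs' step_act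
  | delta =>
    ext g
    constructor
    · intro hg
      exact absurd hg (by simp [tval])
    · rintro ⟨r, l', a, b, hb, hs, hd, rfl⟩
      rcases hs.cases_head with ⟨rfl, rfl⟩ | ⟨l', q', c, hc, d, hs', hq', rfl⟩
      · exact absurd hd done_delta
      · exact absurd hs' step_delta
  | add p q ihp ihq =>
    ext g
    simp only [tval, ihp, ihq, Set.mem_union]
    constructor
    · rintro (hg | hg)
      · obtain ⟨r, l', a, b, hb, hs, hd, rfl⟩ := hg
        rcases hs.cases_head with ⟨rfl, rfl⟩ | ⟨l', q', c, hc, d, hs', hq', rfl⟩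
        · exact ⟨_, _, _, _, hb, GPath.refl _ _, .addL hd, rfl⟩
        · exact ⟨_, _, _, _, hb, (GPath.single (.addL hs') hc).trans hq', hd, rfl⟩
      · obtain ⟨r, l', a, b, hb, hs, hd, rfl⟩ := hg
        rcases hs.cases_head with ⟨rfl, rfl⟩ | ⟨l', q', c, hc, d, hs', hq', rfl⟩
        · exact ⟨_, _, _, _, hb, GPath.refl _ _, .addR hd, rfl⟩
        · exact ⟨_, _, _, _, hb, (GPath.single (.addR hs') hc).trans hq', hd, rfl⟩
    · rintro ⟨r, l', a, b, hb, hs, hd, rfl⟩
      rcases hs.cases_head with ⟨rfl, rfl⟩ | ⟨l', q', c, hc, d, hs', hq', rfl⟩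
      · rw [done_add] at hd
        rcases hd with hd | hd
        · exact Or.inl ⟨_, _, _, _, hb, GPath.refl _ _, hd, rfl⟩
        · exact Or.inr ⟨_, _, _, _, hb, GPath.refl _ _, hd, rfl⟩
      · rw [step_add] at hs'
        rcases hs' with hs' | hs'
        · exact Or.inl ⟨_, _, _, _, hb, (GPath.single hs' hc).trans hq', hd, rfl⟩
        · exact Or.inr ⟨_, _, _, _, hb, (GPath.single hs' hc).trans hq', hd, rfl⟩
  | mul p q ihp ihq =>
    ext g
    simp only [tval, ihp, ihq]
    constructor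
    · rintro ⟨a, ha, b, hb, rfl⟩
      exact (tset_mul_path ha).tset_mem hb
    · rintro ⟨r, l', a, b, hb, hs, hd, rfl⟩
      rcases gpath_mul_dec hs with ⟨p', rfl, _⟩ | ⟨a', ha', b', rfl, hb'⟩
      · exact absurd hd done_mul
      · exact ⟨a', ha', b' * b, ⟨_, _, _, _, hb, hb', hd, rfl⟩, by simp only; group⟩
  | star p q ihp ihq =>
    ext g
    simp only [tval, ihp, ihq]
    constructor
    · rintro ⟨a, ha, b, hb, rfl⟩
      refine (gpath_star_self (q := q) ha).tset_mem ?_
      obtain ⟨r, l', a, b, hb, hs, hd, rfl⟩ := hb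
      rcases hs.cases_head with ⟨rfl, rfl⟩ | ⟨l', q', c, hc, d, hs', hq', rfl⟩
      · exact ⟨_, _, _, _, hb, GPath.refl _ _, .starR hd, rfl⟩
      · exact ⟨_, _, _, _, hb, (GPath.single (.starR hs') hc).trans hq', hd, rfl⟩
    · rintro ⟨r, l', a, b, hb, hs, hd, rfl⟩
      rcases gpath_star_dec hs with ⟨rfl, h6⟩ | ⟨p1, a1, b1, rfl, h6, h7, h8⟩ |
          ⟨a1, b1, h6, h7, h8⟩
      · rw [done_star] at hd
        exact ⟨a, h6, b, ⟨_, _, _, _, hb, GPath.refl _ _, hd, by simp⟩, rfl⟩
      · exact absurd hd done_mul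
      · exact ⟨a1, h7, b1 * b, ⟨_, _, _, _, hb, h8, hd, rfl⟩, by simp only [h6]; group⟩

/-- Value of the loop component of the model. -/
def lval (e : L → Set G) (w : L → Prop) : Proc L → Prop
  | .act l => w l
  | .delta => False
  | .add p q => lval e w p ∨ lval e w q
  | .mul p q => lval e w p ∨ ((tval e p).Nonempty ∧ lval e w q)
  | .star p q => lval e w p ∨ lval e w q ∨ Submonoid.closure (tval e p) = ⊤

/-- `p` has a transition labelled `l`. -/
def Enabled (p : Proc L) (l : L) : Prop := Done p l ∨ ∃ p', Step p l p'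

/-- The state `r` returns to itself with every group element. -/
def FullReturn (e : L → Set G) (r : Proc L) : Prop := ∀ g : G, GPath e r g r

/-- `r` enables a marked label or has a full return. -/
def Marked (e : L → Set G) (w : L → Prop) (r : Proc L) : Prop :=
  (∃ l, w l ∧ Enabled r l) ∨ FullReturn e r

/-- Some marked state is reachable. -/
def Good (e : L → Set G) (w : L → Prop) (p : Proc L) : Prop :=
  ∃ r g, GPath e p g r ∧ Marked e w r

theorem Good.of_gpath {e : L → Set G} {w : L → Prop} {p q : Proc L} {g : G}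
    (h : GPath e p g q) (hq : Good e w q) : Good e w p := by
  obtain ⟨r, g', h', hm⟩ := hq
  exact ⟨r, g * g', h.trans h', hm⟩

/-- full returns are shared along a strongly connected component -/
theorem FullReturn.of_gpath {e : L → Set G} {p q : Proc L} {g h : G}
    (hp : FullReturn e p) (h₁ : GPath e p g q) (h₂ : GPath e q h p) : FullReturn e q := by
  intro k
  have := (h₂.trans (hp (h⁻¹ * k * g⁻¹))).trans h₁
  have hk : h * (h⁻¹ * k * g⁻¹) * g = k := by group
  rwa [hk] at this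

variable [Nontrivial G]

theorem FullReturn.exists_succ {e : L → Set G} {r : Proc L} (h : FullReturn e r) :
    ∃ l r', ∃ a ∈ e l, ∃ b, Step r l r' ∧ GPath e r' b r ∧ FullReturn e r' := by
  obtain ⟨g, hg⟩ := exists_ne (1 : G)
  rcases (h g).cases_head with ⟨_, h1⟩ | ⟨l, q, a, ha, b, hs, hb, rfl⟩
  · exact absurd h1 hg
  · exact ⟨l, q, a, ha, b, hs, hb, h.of_gpath (GPath.single hs ha) hb⟩

theorem good_iff {e : L → Set G} {w : L → Prop} {p : Proc L} :
    Good e w p ↔ (∃ l, w l ∧ Enabled p l) ∨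
      ∃ l p', ∃ _ : (e l).Nonempty, Step p l p' ∧ Good e w p' := by
  constructor
  · rintro ⟨r, g, hg, hm⟩
    rcases hg.cases_head with ⟨rfl, rfl⟩ | ⟨l, q, a, ha, b, hs, hb, rfl⟩
    · rcases hm with hm | hm
      · exact Or.inl hm
      · obtain ⟨l, r', a, ha, b, hs, hb, hf⟩ := hm.exists_succ
        exact Or.inr ⟨l, r', ⟨a, ha⟩, hs, r', 1, GPath.refl _ _, Or.inr hf⟩
    · exact Or.inr ⟨l, q, ⟨a, ha⟩, hs, r, b, hb, hm⟩
  · rintro (⟨l, hl, he⟩ | ⟨l, p', ⟨a, ha⟩, hs, hg⟩)
    · exact ⟨p, 1, GPath.refl _ _, Or.inl ⟨l, hl, he⟩⟩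
    · exact hg.of_gpath (GPath.single hs ha)

theorem enabled_add {p q : Proc L} {l : L} :
    Enabled (.add p q) l ↔ Enabled p l ∨ Enabled q l := by
  unfold Enabled
  rw [done_add]
  simp only [step_add]
  constructor
  · rintro ((h | h) | ⟨r, h | h⟩)
    · exact Or.inl (Or.inl h)
    · exact Or.inr (Or.inl h)
    · exact Or.inl (Or.inr ⟨r, h⟩)
    · exact Or.inr (Or.inr ⟨r, h⟩)
  · rintro ((h | ⟨r, h⟩) | (h | ⟨r, h⟩))
    · exact Or.inl (Or.inl h)
    · exact Or.inr ⟨r, Or.inl h⟩
    · exact Or.inl (Or.inr h)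
    · exact Or.inr ⟨r, Or.inr h⟩

theorem enabled_mul {p q : Proc L} {l : L} : Enabled (.mul p q) l ↔ Enabled p l := by
  unfold Enabled
  constructor
  · rintro (h | ⟨r, h⟩)
    · exact absurd h done_mul
    · rw [step_mul] at h
      rcases h with ⟨p', h, _⟩ | ⟨h, _⟩
      · exact Or.inr ⟨p', h⟩
      · exact Or.inl h
  · rintro (h | ⟨r, h⟩)
    · exact Or.inr ⟨q, .mulR h⟩
    · exact Or.inr ⟨_, .mulL h⟩

theorem enabled_star {p q : Proc L} {l : L} :
    Enabled (.star p q) l ↔ Enabled p l ∨ Enabled q l := by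
  unfold Enabled
  constructor
  · rintro (h | ⟨r, h⟩)
    · rw [done_star] at h
      exact Or.inr (Or.inl h)
    · rw [step_star] at h
      rcases h with ⟨p', h, _⟩ | ⟨h, _⟩ | h
      · exact Or.inl (Or.inr ⟨_, h⟩)
      · exact Or.inl (Or.inl h)
      · exact Or.inr (Or.inr ⟨_, h⟩)
  · rintro ((h | ⟨r, h⟩) | (h | ⟨r, h⟩))
    · exact Or.inr ⟨_, .starD h⟩
    · exact Or.inr ⟨_, .starL h⟩
    · exact Or.inl (.starR h)
    · exact Or.inr ⟨_, .starR h⟩

theorem good_mul {e : L → Set G} {w : L → Prop} {p q : Proc L} :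
    Good e w (.mul p q) ↔ Good e w p ∨ ((tset e p).Nonempty ∧ Good e w q) := by
  constructor
  · rintro ⟨r, g, hg, hm⟩
    rcases gpath_mul_dec hg with ⟨p', rfl, hp'⟩ | ⟨a, ha, b, rfl, hb⟩
    · by_cases hex : ∃ k, ∃ a ∈ tset e p', ∃ b, k = a * b ∧ GPath e q b (.mul p' q)
      · obtain ⟨k, a, ha, b, rfl, hb⟩ := hex
        exact Or.inr ⟨⟨g * a, hp'.tset_mem ha⟩, _, b, hb, hm⟩
      · left
        refine ⟨p', g, hp', ?_⟩
        rcases hm with ⟨l, hl, hen⟩ | hf
        · rw [enabled_mul] at hen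
          exact Or.inl ⟨l, hl, hen⟩
        · right
          intro k
          rcases gpath_mul_dec (hf k) with ⟨p'', h1, hp''⟩ | ⟨a, ha, b, h1, hb⟩
          · injection h1 with h2 h3
            rw [← h2] at hp''
            exact hp''
          · exact absurd ⟨k, a, ha, b, h1, hb⟩ hex
    · exact Or.inr ⟨⟨a, ha⟩, r, b, hb, hm⟩
  · rintro (⟨r, g, hg, hm⟩ | ⟨⟨a, ha⟩, hq⟩)
    · refine ⟨.mul r q, g, hg.mul q, ?_⟩
      rcases hm with ⟨l, hl, hen⟩ | hf
      · exact Or.inl ⟨l, hl, enabled_mul.2 hen⟩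
      · exact Or.inr fun k => (hf k).mul q
    · exact hq.of_gpath (tset_mul_path ha)

theorem good_add {e : L → Set G} {w : L → Prop} {p q : Proc L} :
    Good e w (.add p q) ↔ Good e w p ∨ Good e w q := by
  rw [good_iff, good_iff (p := p), good_iff (p := q)]
  simp only [enabled_add, step_add]
  constructor
  · rintro (⟨l, hl, h | h⟩ | ⟨l, p', hn, h | h, hg⟩)
    · exact Or.inl (Or.inl ⟨l, hl, h⟩)
    · exact Or.inr (Or.inl ⟨l, hl, h⟩)
    · exact Or.inl (Or.inr ⟨l, p', hn, h, hg⟩)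
    · exact Or.inr (Or.inr ⟨l, p', hn, h, hg⟩)
  · rintro ((⟨l, hl, h⟩ | ⟨l, p', hn, h, hg⟩) | (⟨l, hl, h⟩ | ⟨l, p', hn, h, hg⟩))
    · exact Or.inl ⟨l, hl, Or.inl h⟩
    · exact Or.inr ⟨l, p', hn, Or.inl h, hg⟩
    · exact Or.inl ⟨l, hl, Or.inr h⟩
    · exact Or.inr ⟨l, p', hn, Or.inr h, hg⟩

theorem good_star {e : L → Set G} {w : L → Prop} {p q : Proc L} :
    Good e w (.star p q) ↔ Good e w p ∨ Good e w q ∨ Submonoid.closure (tset e p) = ⊤ := by
  constructor
  · rintro ⟨r, g, hg, hm⟩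
    -- first, the case of a full return at the head
    have head : FullReturn e (.star p q) →
        Good e w p ∨ Good e w q ∨ Submonoid.closure (tset e p) = ⊤ := by
      intro hf
      by_cases hex : ∃ b, GPath e q b (.star p q)
      · obtain ⟨b, hb⟩ := hex
        exact Or.inr (Or.inl ⟨_, b, hb, Or.inr hf⟩)
      · refine Or.inr (Or.inr ?_)
        rw [eq_top_iff]
        intro k _
        rcases gpath_star_dec (hf k) with ⟨_, h6⟩ | ⟨p1, a1, b1, h5, h6, h7, h8⟩ |
          ⟨a1, b1, h6, h7, h8⟩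
        · exact h6
        · exact absurd h5 (by simp)
        · exact absurd ⟨b1, h8⟩ hex
    rcases gpath_star_dec hg with ⟨rfl, h6⟩ | ⟨p1, a1, b1, rfl, h6, h7, h8⟩ |
          ⟨a1, b1, h6, h7, h8⟩
    · rcases hm with ⟨l, hl, hen⟩ | hf
      · rw [enabled_star] at hen
        rcases hen with hen | hen
        · exact Or.inl ⟨p, 1, GPath.refl _ _, Or.inl ⟨l, hl, hen⟩⟩
        · exact Or.inr (Or.inl ⟨q, 1, GPath.refl _ _, Or.inl ⟨l, hl, hen⟩⟩)
      · exact head hf
    · rcases hm with ⟨l, hl, hen⟩ | hf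
      · rw [enabled_mul] at hen
        exact Or.inl ⟨p1, b1, h8, Or.inl ⟨l, hl, hen⟩⟩
      · by_cases hex : ∃ k, ∃ a ∈ tset e p1, ∃ b, k = a * b ∧
            GPath e (.star p q) b (.mul p1 (.star p q))
        · obtain ⟨k, a, ha, b, rfl, hb⟩ := hex
          exact head (hf.of_gpath (tset_mul_path ha) hb)
        · left
          refine ⟨p1, b1, h8, Or.inr ?_⟩
          intro k
          rcases gpath_mul_dec (hf k) with ⟨p'', h1, hp''⟩ | ⟨a, ha, b, h1, hb⟩
          · injection h1 with h2 h3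
            rw [← h2] at hp''
            exact hp''
          · exact absurd ⟨k, a, ha, b, h1, hb⟩ hex
    · exact Or.inr (Or.inl ⟨r, b1, h8, hm⟩)
  · rintro (h | h | h)
    · rw [good_iff] at h
      rcases h with ⟨l, hl, hen⟩ | ⟨l, p', ⟨a, ha⟩, hs, hg⟩
      · exact ⟨_, 1, GPath.refl _ _, Or.inl ⟨l, hl, enabled_star.2 (Or.inl hen)⟩⟩
      · exact (good_mul.2 (Or.inl hg)).of_gpath (GPath.single (.starL hs) ha)
    · rw [good_iff] at h
      rcases h with ⟨l, hl, hen⟩ | ⟨l, p', ⟨a, ha⟩, hs, hg⟩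
      · exact ⟨_, 1, GPath.refl _ _, Or.inl ⟨l, hl, enabled_star.2 (Or.inr hen)⟩⟩
      · exact hg.of_gpath (GPath.single (.starR hs) ha)
    · refine ⟨_, 1, GPath.refl _ _, Or.inr ?_⟩
      intro k
      exact gpath_star_self (by rw [h]; trivial)

theorem lval_iff_good (e : L → Set G) (w : L → Prop) (p : Proc L) :
    lval e w p ↔ Good e w p := by
  induction p with
  | act l =>
    rw [good_iff]
    simp only [lval]
    constructor
    · intro h
      exact Or.inl ⟨l, h, Or.inl (.act l)⟩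
    · rintro (⟨l', hl', h | ⟨_, h⟩⟩ | ⟨l', p', _, h, _⟩)
      · rw [done_act] at h
        rwa [h] at hl'
      · exact absurd h step_act
      · exact absurd h step_act
  | delta =>
    rw [good_iff]
    simp only [lval]
    constructor
    · exact False.elim
    · rintro (⟨l', hl', h | ⟨_, h⟩⟩ | ⟨l', p', _, h, _⟩)
      · exact absurd h done_delta
      · exact absurd h step_delta
      · exact absurd h step_delta
  | add p q ihp ihq =>
    rw [good_add, ← ihp, ← ihq]
    rfl
  | mul p q ihp ihq =>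
    rw [good_mul, ← ihp, ← ihq, ← tval_eq_tset]
    rfl
  | star p q ihp ihq =>
    rw [good_star, ← ihp, ← ihq, ← tval_eq_tset]
    rfl

/-- Bisimilar processes have the same termination value. -/
theorem Bisimilar.tset_subset {e : L → Set G} {p q : Proc L} (h : Bisimilar p q) :
    tset e p ⊆ tset e q := by
  rintro g ⟨r, l, a, b, hb, ⟨w, hw, ha⟩, hd, rfl⟩
  obtain ⟨r', hr', hb'⟩ := hw.bisim h
  exact ⟨r', l, a, b, hb, ⟨w, hr', ha⟩, hb'.done hd, rfl⟩

theorem Bisimilar.tval_eq {e : L → Set G} {p q : Proc L} (h : Bisimilar p q) :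
    tval e p = tval e q := by
  rw [tval_eq_tset, tval_eq_tset]
  exact h.tset_subset.antisymm h.symm.tset_subset

theorem Bisimilar.enabled {p q : Proc L} (h : Bisimilar p q) {l : L} (hp : Enabled p l) :
    Enabled q l := by
  rcases hp with hp | ⟨p', hp⟩
  · exact Or.inl (h.done hp)
  · obtain ⟨q', hq', _⟩ := h.step hp
    exact Or.inr ⟨q', hq'⟩

end Model

end Pool.Agent.H82.BPADelta
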