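import Mathlib
import Pool.Agent.H82.BPADelta.Model

set_option autoImplicit false

universe u v

open scoped Pointwise

namespace Pool.Agent.H82.BPADelta

section GroupLemmas

variable {G : Type v} [Group G] [Finite G]

/-- If `E` generates a finite perfect group, then so does `E ^ n` for every `n ≥ 1`. -/
theorem closure_pow_eq_top (hperf : commutator G = ⊤) {E : Set G}
    (hE : Submonoid.closure E = ⊤) {n : ℕ} (hn : 1 ≤ n) : Submonoid.closure (E ^ n) = ⊤ := by
  rcases E.eq_empty_or_nonempty with rfl | ⟨e₀, he₀⟩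
  · obtain ⟨m, rfl⟩ : ∃ m, n = m + 1 := ⟨n - 1, by omega⟩
    rw [pow_succ, Set.mul_empty]
    exact hE
  obtain ⟨m, rfl⟩ : ∃ m, n = m + 1 := ⟨n - 1, by omega⟩
  set H : Subgroup G := Subgroup.closure (E ^ (m + 1)) with hH
  have hsub : E ^ (m + 1) ⊆ H := Subgroup.subset_closure
  have hne : (E ^ m).Nonempty := ⟨_, Set.pow_mem_pow he₀⟩
  -- quotients of generators lie in `H`
  have hquot : ∀ a ∈ E, ∀ b ∈ E, a⁻¹ * b ∈ H := by
    intro a ha b hb
    obtain ⟨c, hc⟩ := hne
    have h1 : c * a ∈ H := hsub (by rw [pow_succ]; exact Set.mul_mem_mul hc ha)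
    have h2 : c * b ∈ H := hsub (by rw [pow_succ]; exact Set.mul_mem_mul hc hb)
    have := H.mul_mem (H.inv_mem h1) h2
    have h3 : (c * a)⁻¹ * (c * b) = a⁻¹ * b := by group
    rwa [h3] at this
  -- conjugation by generators
  have hconj : ∀ a ∈ E, ∀ x ∈ H, a⁻¹ * x * a ∈ H := by
    intro a ha x hx
    induction hx using Subgroup.closure_induction with
    | mem x hx =>
      rw [pow_succ'] at hx
      obtain ⟨b, hb, c, hc, rfl⟩ := hx
      have h1 := hquot a ha b hb
      have h2 : c * a ∈ H := hsub (by rw [pow_succ]; exact Set.mul_mem_mul hc ha)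
      have := H.mul_mem h1 h2
      have h3 : a⁻¹ * b * (c * a) = a⁻¹ * (b * c) * a := by group
      rwa [h3] at this
    | one => simp
    | mul x y _ _ hx hy =>
      have := H.mul_mem hx hy
      have h3 : a⁻¹ * x * a * (a⁻¹ * y * a) = a⁻¹ * (x * y) * a := by group
      rwa [h3] at this
    | inv x _ hx =>
      have := H.inv_mem hx
      have h3 : (a⁻¹ * x * a)⁻¹ = a⁻¹ * x⁻¹ * a := by group
      rwa [h3] at this
  have hconj' : ∀ a : G, ∀ x ∈ H, a⁻¹ * x * a ∈ H := by
    intro a
    have ha : a ∈ Submonoid.closure E := by rw [hE]; trivial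
    induction ha using Submonoid.closure_induction with
    | mem a ha => exact hconj a ha
    | one => intro x hx; simpa using hx
    | mul a b _ _ ha hb =>
      intro x hx
      have := hb _ (ha _ hx)
      have h3 : b⁻¹ * (a⁻¹ * x * a) * b = (a * b)⁻¹ * x * (a * b) := by group
      rwa [h3] at this
  have hnormal : H.Normal := ⟨fun x hx a => by
    have := hconj' a⁻¹ x hx
    rwa [inv_inv] at this⟩
  have hsup : H ⊔ Subgroup.zpowers e₀ = ⊤ := by
    rw [eq_top_iff]
    intro a _
    have ha : a ∈ Submonoid.closure E := by rw [hE]; trivial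
    induction ha using Submonoid.closure_induction with
    | mem a ha =>
      have h1 : e₀⁻¹ * a ∈ H ⊔ Subgroup.zpowers e₀ :=
        (le_sup_left : H ≤ _) (hquot _ he₀ _ ha)
      have h2 : e₀ ∈ H ⊔ Subgroup.zpowers e₀ :=
        (le_sup_right : Subgroup.zpowers e₀ ≤ _) (Subgroup.mem_zpowers e₀)
      have := Subgroup.mul_mem _ h2 h1
      rwa [mul_inv_cancel_left] at this
    | one => exact Subgroup.one_mem _
    | mul a b _ _ ha hb => exact Subgroup.mul_mem _ (ha trivial) (hb trivial)
  have hle : commutator G ≤ H :=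
    Subgroup.Normal.commutator_le_of_self_sup_commutative_eq_top hsup inferInstance
  rw [hperf, top_le_iff] at hle
  rw [← Subgroup.closure_toSubmonoid_of_finite, ← hH, hle]
  rfl

/-- If every proper subgroup has index larger than the size of a finite set `B`, and one can
move inside of `B` along every group element, then some point of `B` has full return. -/
theorem exists_full {α : Type u} (P : α → G → α → Prop) (hrefl : ∀ s, P s 1 s)
    (htrans : ∀ s t r g h, P s g t → P t h r → P s (g * h) r)
    (B : Finset α) (hB : B.Nonempty) (hmove : ∀ s ∈ B, ∀ g, ∃ t ∈ B, P s g t)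
    (hidx : ∀ H : Subgroup G, H.index ≤ B.card → H = ⊤) :
    ∃ s ∈ B, ∀ g, P s g s := by
  classical
  let R : α → Finset α := fun s => B.filter fun t => ∃ g, P s g t
  obtain ⟨s, hs, hmin⟩ := B.exists_min_image (fun s => (R s).card) hB
  refine ⟨s, hs, ?_⟩
  have hback : ∀ t ∈ B, (∃ g, P s g t) → ∃ k, P t k s := by
    rintro t ht ⟨g, hg⟩
    have hsub : R t ⊆ R s := by
      intro r hr
      simp only [R, Finset.mem_filter] at hr ⊢
      obtain ⟨h1, h, h2⟩ := hr
      exact ⟨h1, g * h, htrans _ _ _ _ _ hg h2⟩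
    have heq : R t = R s := Finset.eq_of_subset_of_card_le hsub (hmin t ht)
    have hsmem : s ∈ R s := by
      simp only [R, Finset.mem_filter]
      exact ⟨hs, 1, hrefl s⟩
    rw [← heq] at hsmem
    simp only [R, Finset.mem_filter] at hsmem
    exact hsmem.2
  have hpow : ∀ g, P s g s → ∀ k : ℕ, P s (g ^ k) s := by
    intro g hg k
    induction k with
    | zero => simpa using hrefl s
    | succ k ih => rw [pow_succ]; exact htrans _ _ _ _ _ ih hg
  let H : Subgroup G :=
    { carrier := {g | P s g s}
      one_mem' := hrefl s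
      mul_mem' := fun {a b} ha hb => htrans _ _ _ _ _ ha hb
      inv_mem' := by
        intro a ha
        have h1 : a⁻¹ = a ^ (orderOf a - 1) := by
          rw [inv_eq_iff_mul_eq_one, ← pow_succ', Nat.sub_add_cancel (orderOf_pos a),
            pow_orderOf_eq_one]
        show P s a⁻¹ s
        rw [h1]
        exact hpow a ha _ }
  have hmem : ∀ g, g ∈ H ↔ P s g s := fun g => Iff.rfl
  choose! f hfB hfP using hmove
  have hle : H.index ≤ B.card := by
    rw [Subgroup.index_eq_card]
    have : Nat.card (G ⧸ H) ≤ Nat.card B := by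
      refine Nat.card_le_card_of_injective
        (fun x : G ⧸ H => (⟨f s (Quotient.out x)⁻¹, hfB s hs _⟩ : B)) ?_
      intro x y hxy
      simp only [Subtype.mk.injEq] at hxy
      set a := Quotient.out x with ha
      set b := Quotient.out y with hb
      obtain ⟨k, hk⟩ := hback (f s a⁻¹) (hfB s hs _) ⟨a⁻¹, hfP s hs _⟩
      have h1 : a⁻¹ * k ∈ H := htrans _ _ _ _ _ (hfP s hs a⁻¹) hk
      have h2 : b⁻¹ * k ∈ H := by
        refine htrans _ _ _ _ _ (hfP s hs b⁻¹) ?_
        rw [← hxy]; exact hk
      have h3 : a⁻¹ * b ∈ H := by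
        have := H.mul_mem h1 (H.inv_mem h2)
        have h4 : a⁻¹ * k * (b⁻¹ * k)⁻¹ = a⁻¹ * b := by group
        rwa [h4] at this
      have h5 : (a : G ⧸ H) = (b : G ⧸ H) := QuotientGroup.eq.2 h3
      have h6 : (a : G ⧸ H) = x := by rw [ha]; exact Quotient.out_eq' x
      have h7 : (b : G ⧸ H) = y := by rw [hb]; exact Quotient.out_eq' y
      rw [← h6, ← h7, h5]
    simpa using this
  have htop := hidx H hle
  intro g
  rw [← hmem, htop]
  trivial

end GroupLemmas

section Transfer

variable {L : Type u} {G : Type v} [Group G] [Finite G] [Nontrivial G]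

/-- Transfer of the marked states to a bisimilar process with few residuals. -/
theorem Good.bisim_small {e : L → Set G} {w : L → Prop} {p q : Proc L} (hpq : Bisimilar p q)
    {X : Set (Proc L)} (hXf : X.Finite) (hq : q ∈ X) (hX : Closed X)
    (hidx : ∀ H : Subgroup G, H.index ≤ X.ncard → H = ⊤)
    (hp : Good e w p) : Good e w q := by
  classical
  obtain ⟨r, g, ⟨v, hv, hg⟩, hm⟩ := hp
  obtain ⟨s, hs, hrs⟩ := hv.bisim hpq
  have hqs : GPath e q g s := ⟨v, hs, hg⟩
  rcases hm with ⟨l, hl, hen⟩ | hf
  · exact ⟨s, g, hqs, Or.inl ⟨l, hl, hrs.enabled hen⟩⟩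
  · let B : Finset (Proc L) := hXf.toFinset.filter fun t => Bisimilar r t ∧ ∃ g, GPath e q g t
    have hBmem : ∀ t, t ∈ B ↔ t ∈ X ∧ Bisimilar r t ∧ ∃ g, GPath e q g t := by
      intro t; simp [B]
    have hcard : B.card ≤ X.ncard := by
      rw [Set.ncard_eq_toFinset_card X hXf]
      exact Finset.card_filter_le _ _
    obtain ⟨t, ht, hfull⟩ := exists_full (fun s g t => GPath e s g t)
      (fun s => GPath.refl e s) (fun _ _ _ _ _ h₁ h₂ => h₁.trans h₂) B
      ⟨s, (hBmem s).2 ⟨hs.mem_closed hX hq, hrs, g, hqs⟩⟩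
      (by
        intro t ht k
        rw [hBmem] at ht
        obtain ⟨htX, hrt, k', hqt⟩ := ht
        obtain ⟨v', hv', hk⟩ := hf k
        obtain ⟨t', ht', hrt'⟩ := hv'.bisim hrt
        refine ⟨t', (hBmem t').2 ⟨ht'.mem_closed hX htX, hrt', k' * k,
          hqt.trans ⟨v', ht', hk⟩⟩, v', ht', hk⟩)
      (fun H hH => hidx H (hH.trans hcard))
    rw [hBmem] at ht
    obtain ⟨_, _, k, hk⟩ := ht
    exact ⟨t, k, hk, Or.inr hfull⟩

/-- The labels occurring in a process. -/
def labels : Proc L → Set L
  | .act l => {l}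
  | .delta => ∅
  | .add p q => labels p ∪ labels q
  | .mul p q => labels p ∪ labels q
  | .star p q => labels p ∪ labels q

theorem Done.labels {p : Proc L} {l : L} (h : Done p l) : l ∈ labels p := by
  induction h with
  | act a => rfl
  | addL _ ih => exact Or.inl ih
  | addR _ ih => exact Or.inr ih
  | starR _ ih => exact Or.inr ih

theorem Step.labels {p p' : Proc L} {l : L} (h : Step p l p') :
    l ∈ labels p ∧ BPADelta.labels p' ⊆ labels p := by
  induction h with
  | addL _ ih => exact ⟨Or.inl ih.1, fun x hx => Or.inl (ih.2 hx)⟩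
  | addR _ ih => exact ⟨Or.inr ih.1, fun x hx => Or.inr (ih.2 hx)⟩
  | mulL _ ih =>
    refine ⟨Or.inl ih.1, ?_⟩
    rintro x (hx | hx)
    · exact Or.inl (ih.2 hx)
    · exact Or.inr hx
  | mulR h => exact ⟨Or.inl h.labels, fun x hx => Or.inr hx⟩
  | starL _ ih =>
    refine ⟨Or.inl ih.1, ?_⟩
    rintro x (hx | hx | hx)
    · exact Or.inl (ih.2 hx)
    · exact Or.inl hx
    · exact Or.inr hx
  | starD h => exact ⟨Or.inl h.labels, fun x hx => hx⟩
  | starR _ ih => exact ⟨Or.inr ih.1, fun x hx => Or.inr (ih.2 hx)⟩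

theorem Path.labels {p p' : Proc L} {w : List L} (h : Path p w p') :
    (∀ l ∈ w, l ∈ labels p) ∧ BPADelta.labels p' ⊆ labels p := by
  induction h with
  | nil p => exact ⟨by simp, fun x hx => hx⟩
  | cons hs _ ih =>
    have h1 := hs.labels
    refine ⟨?_, fun x hx => h1.2 (ih.2 hx)⟩
    intro l hl
    rw [List.mem_cons] at hl
    rcases hl with rfl | hl
    · exact h1.1
    · exact h1.2 (ih.1 l hl)

theorem wset_eq_pow {e : L → Set G} {E : Set G} {c : L → ℕ} {w : List L}
    (h : ∀ l ∈ w, e l = E ^ c l) : wset e w = E ^ (w.map c).sum := by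
  induction w with
  | nil => simp [wset_nil]
  | cons l w ih =>
    rw [wset_cons, ih (fun l hl => h l (List.mem_cons_of_mem _ hl)),
      h l List.mem_cons_self, List.map_cons, List.sum_cons, pow_add]

theorem pow_subset_closure (E : Set G) (n : ℕ) : E ^ n ⊆ Submonoid.closure E := by
  induction n with
  | zero =>
    rintro x hx
    rw [pow_zero, Set.mem_one] at hx
    rw [hx]; exact Submonoid.one_mem _
  | succ n ih =>
    rw [pow_succ]
    rintro x ⟨a, ha, b, hb, rfl⟩
    exact Submonoid.mul_mem _ (ih ha) (Submonoid.subset_closure hb)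

/-- Transfer of the marked states to a bisimilar process, when all labels are interpreted by
powers of a single set `E` and the group is perfect. -/
theorem Good.bisim_pow {e : L → Set G} {w : L → Prop} {p q : Proc L} (hpq : Bisimilar p q)
    (hperf : commutator G = ⊤) {E : Set G} {c : L → ℕ} (hE : ∀ l ∈ labels p, e l = E ^ c l)
    (hp : Good e w p) : Good e w q := by
  classical
  obtain ⟨r, g, ⟨v, hv, hg⟩, hm⟩ := hp
  obtain ⟨s, hs, hrs⟩ := hv.bisim hpq
  have hqs : GPath e q g s := ⟨v, hs, hg⟩
  rcases hm with ⟨l, hl, hen⟩ | hf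
  · exact ⟨s, g, hqs, Or.inl ⟨l, hl, hrs.enabled hen⟩⟩
  · -- the set `E` generates the group
    have hlab : ∀ v' r', Path r v' r' → ∀ l ∈ v', e l = E ^ c l := by
      intro v' r' hv' l hl
      exact hE l (hv.labels.2 (hv'.labels.1 l hl))
    have hgen : Submonoid.closure E = ⊤ := by
      rw [eq_top_iff]
      intro k _
      obtain ⟨v', hv', hk⟩ := hf k
      rw [wset_eq_pow (hlab v' r hv')] at hk
      exact pow_subset_closure E _ hk
    -- a cycle with a nontrivial label
    obtain ⟨k, hk1⟩ := exists_ne (1 : G)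
    obtain ⟨v', hv', hk⟩ := hf k
    have hpos : 1 ≤ (v'.map c).sum := by
      rw [wset_eq_pow (hlab v' r hv')] at hk
      by_contra hcon
      have h0 : (v'.map c).sum = 0 := by omega
      rw [h0, pow_zero, Set.mem_one] at hk
      exact hk1 hk
    -- iterate the cycle in `q`
    obtain ⟨X, hXf, hqX, hX⟩ := exists_finite_closed q
    have hnext : ∀ t, Bisimilar r t → ∃ t', Path t v' t' ∧ Bisimilar r t' :=
      fun t ht => hv'.bisim ht
    let nxt : {t // Bisimilar r t} → {t // Bisimilar r t} := fun t =>
      ⟨(hnext t.1 t.2).choose, (hnext t.1 t.2).choose_spec.2⟩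
    have hnxt : ∀ t, Path t.1 v' (nxt t).1 := fun t => (hnext t.1 t.2).choose_spec.1
    let sq : ℕ → {t // Bisimilar r t} := fun n => nxt^[n] ⟨s, hrs⟩
    have hsq : ∀ n, Path (sq n).1 v' (sq (n + 1)).1 := by
      intro n
      have : sq (n + 1) = nxt (sq n) := Function.iterate_succ_apply' _ _ _
      rw [this]
      exact hnxt _
    have hsqm : ∀ n m, Path (sq n).1 (List.replicate m v').flatten (sq (n + m)).1 := by
      intro n m
      induction m with
      | zero => simpa using Path.nil _
      | succ m ih =>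
        rw [List.replicate_succ', List.flatten_append]
        simp only [List.flatten_cons, List.flatten_nil, List.append_nil]
        exact ih.append (hsq (n + m))
    have hreach : ∀ n, ∃ a, GPath e q a (sq n).1 := by
      intro n
      have h1 := hsqm 0 n
      rw [Nat.zero_add] at h1
      have hne : (wset e (List.replicate n v').flatten).Nonempty := by
        induction n with
        | zero => exact ⟨1, by simp [wset_nil]⟩
        | succ n ih =>
          rw [List.replicate_succ', List.flatten_append, wset_append]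
          simp only [List.flatten_cons, List.flatten_nil, List.append_nil]
          exact Set.Nonempty.mul (ih (by have := hsqm 0 n; rwa [Nat.zero_add] at this)) ⟨k, hk⟩
      obtain ⟨a, ha⟩ := hne
      exact ⟨g * a, hqs.trans ⟨_, h1, ha⟩⟩
    have hsX : ∀ n, (sq n).1 ∈ X := by
      intro n
      obtain ⟨a, v1, hv1, _⟩ := hreach n
      exact hv1.mem_closed hX hqX
    obtain ⟨i, j, hij, heq⟩ : ∃ i j, i < j ∧ (sq i).1 = (sq j).1 := by
      haveI : Finite X := hXf
      obtain ⟨i, j, hne, h⟩ := Finite.exists_ne_map_eq_of_infinite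
        (fun n => (⟨(sq n).1, hsX n⟩ : X))
      simp only [Subtype.mk.injEq] at h
      rcases lt_or_gt_of_ne hne with h' | h'
      · exact ⟨i, j, h', h⟩
      · exact ⟨j, i, h', h.symm⟩
    obtain ⟨d, rfl⟩ : ∃ d, j = i + (d + 1) := ⟨j - i - 1, by omega⟩
    have hcyc := hsqm i (d + 1)
    rw [← heq] at hcyc
    obtain ⟨a, ha⟩ := hreach i
    refine ⟨(sq i).1, a, ha, Or.inr ?_⟩
    -- full return
    have hw : wset e (List.replicate (d + 1) v').flatten = E ^ ((v'.map c).sum * (d + 1)) := by
      have : ∀ m, wset e (List.replicate m v').flatten = E ^ ((v'.map c).sum * m) := by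
        intro m
        induction m with
        | zero => simp [wset_nil]
        | succ m ih =>
          rw [List.replicate_succ', List.flatten_append, wset_append, ih]
          simp only [List.flatten_cons, List.flatten_nil, List.append_nil]
          rw [wset_eq_pow (hlab v' r hv'), mul_add, mul_one, pow_add]
      exact this _
    have htop := closure_pow_eq_top hperf hgen
      (n := (v'.map c).sum * (d + 1)) (Nat.mul_pos hpos (Nat.succ_pos _))
    intro b
    have hb : b ∈ Submonoid.closure (E ^ ((v'.map c).sum * (d + 1))) := by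
      rw [htop]; trivial
    induction hb using Submonoid.closure_induction with
    | mem b hb => exact ⟨_, hcyc, by rw [hw]; exact hb⟩
    | one => exact GPath.refl _ _
    | mul x y _ _ hx hy => exact hx.trans hy

end Transfer

end Pool.Agent.H82.BPADelta
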