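import Mathlib
import Pool.Agent.H82.BPADelta.Group

set_option autoImplicit false

universe u v

namespace Pool.Agent.H82.BPADelta

section Reduction

variable {A : Type u} {V : Type v}

/-- Open terms as closed terms over the alphabet `A ⊕ V`. -/
def Term.hat : Term A V → Proc (A ⊕ V)
  | .var x => .act (Sum.inr x)
  | .act a => .act (Sum.inl a)
  | .delta => .delta
  | .add s t => .add s.hat t.hat
  | .mul s t => .mul s.hat t.hat
  | .star s t => .star s.hat t.hat

/-- Closed substitution on the symbolic side. -/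
def cl (σ : V → Proc A) : Proc (A ⊕ V) → Proc A
  | .act (Sum.inl a) => .act a
  | .act (Sum.inr x) => σ x
  | .delta => .delta
  | .add p q => .add (cl σ p) (cl σ q)
  | .mul p q => .mul (cl σ p) (cl σ q)
  | .star p q => .star (cl σ p) (cl σ q)

theorem cl_hat (σ : V → Proc A) (t : Term A V) : cl σ t.hat = t.close σ := by
  induction t with
  | var x => rfl
  | act a => rfl
  | delta => rfl
  | add s t ihs iht => simp only [Term.hat, cl, Term.close, ihs, iht]
  | mul s t ihs iht => simp only [Term.hat, cl, Term.close, ihs, iht]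
  | star s t ihs iht => simp only [Term.hat, cl, Term.close, ihs, iht]

/-- `a^n · δ` -/
def chain (a : A) : ℕ → Proc A
  | 0 => .delta
  | n + 1 => .mul (.act a) (chain a n)

/-- `a^k · δ + a` -/
def sig (a : A) (k : ℕ) : Proc A := .add (chain a k) (.act a)

/-- `a · (a^k · δ + a)` -/
def code (a : A) (k : ℕ) : Proc A := .mul (.act a) (sig a k)

theorem done_chain {a b : A} {n : ℕ} : ¬ Done (chain a n) b := by
  cases n with
  | zero => exact done_delta
  | succ n => exact done_mul

theorem step_chain {a b : A} {n : ℕ} {r : Proc A} (h : Step (chain a n) b r) :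
    ∃ m, n = m + 1 ∧ b = a ∧ r = chain a m := by
  cases n with
  | zero => exact absurd h step_delta
  | succ n =>
    simp only [chain] at h
    rw [step_mul] at h
    rcases h with ⟨p', h, _⟩ | ⟨h, rfl⟩
    · exact absurd h step_act
    · rw [done_act] at h
      exact ⟨n, rfl, h, rfl⟩

theorem chain_step (a : A) (n : ℕ) : Step (chain a (n + 1)) a (chain a n) :=
  .mulR (.act a)

theorem chain_inj {a : A} {m n : ℕ} (h : Bisimilar (chain a m) (chain a n)) : m = n := by
  induction m generalizing n with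
  | zero =>
    cases n with
    | zero => rfl
    | succ n =>
      obtain ⟨r, hr, _⟩ := h.symm.step (chain_step a n)
      exact absurd hr step_delta
  | succ m ih =>
    obtain ⟨r, hr, hb⟩ := h.step (chain_step a m)
    obtain ⟨k, hk, _, rfl⟩ := step_chain hr
    rw [ih hb, hk]

theorem chain_mul (a : A) (n : ℕ) (q : Proc A) : Bisimilar (.mul (chain a n) q) (chain a n) := by
  induction n with
  | zero =>
    refine Bisimilar.of_trans ?_ ?_ ?_
    · intro b r h
      simp only [chain] at h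
      rw [step_mul] at h
      rcases h with ⟨p', h, _⟩ | ⟨h, _⟩
      · exact absurd h step_delta
      · exact absurd h done_delta
    · intro b r h
      exact absurd h step_delta
    · intro b
      exact iff_of_false done_mul done_delta
  | succ n ih =>
    exact (bisim_mul_assoc _ _ _).trans ((Bisimilar.refl _).mul ih)

theorem done_sig {a b : A} {k : ℕ} : Done (sig a k) b ↔ b = a := by
  unfold sig
  rw [done_add, done_act]
  exact or_iff_right done_chain

theorem step_sig {a b : A} {k : ℕ} {r : Proc A} (h : Step (sig a k) b r) :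
    ∃ m, k = m + 1 ∧ b = a ∧ r = chain a m := by
  unfold sig at h
  rw [step_add] at h
  exact step_chain (h.resolve_right step_act)

theorem sig_step (a : A) (k : ℕ) : Step (sig a (k + 1)) a (chain a k) := .addL (chain_step a k)

theorem sig_mul_step {a : A} {k : ℕ} {q : Proc A} :
    ∃ r, Step (.mul (sig a (k + 1)) q) a r ∧ Bisimilar r (chain a k) :=
  ⟨_, .mulL (sig_step a k), chain_mul a k q⟩

theorem step_sig_mul {a b : A} {k : ℕ} {q r : Proc A} (h : Step (.mul (sig a k) q) b r) :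
    b = a ∧ ((∃ m, k = m + 1 ∧ Bisimilar r (chain a m)) ∨ r = q) := by
  rw [step_mul] at h
  rcases h with ⟨p', h, rfl⟩ | ⟨h, rfl⟩
  · obtain ⟨m, rfl, rfl, rfl⟩ := step_sig h
    exact ⟨rfl, Or.inl ⟨m, rfl, chain_mul _ _ _⟩⟩
  · rw [done_sig] at h
    exact ⟨h, Or.inr rfl⟩

theorem code_step (a : A) (k : ℕ) : Step (code a k) a (sig a k) := .mulR (.act a)

theorem step_code {a b : A} {k : ℕ} {r : Proc A} (h : Step (code a k) b r) :
    b = a ∧ r = sig a k := by
  unfold code at h
  rw [step_mul] at h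
  rcases h with ⟨p', h, _⟩ | ⟨h, rfl⟩
  · exact absurd h step_act
  · rw [done_act] at h
    exact ⟨h, rfl⟩

/-! ### Transitions of closed instances -/

variable (a₀ : A) (k : V → ℕ)

theorem cl_done {σ : V → Proc A} {p : Proc (A ⊕ V)} {b : A} (h : Done p (Sum.inl b)) :
    Done (cl σ p) b := by
  induction p with
  | act l =>
    rw [done_act] at h
    subst h
    exact .act b
  | delta => exact absurd h done_delta
  | add p q ihp ihq =>
    rw [done_add] at h
    rcases h with h | h
    · exact .addL (ihp h)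
    · exact .addR (ihq h)
  | mul p q _ _ => exact absurd h done_mul
  | star p q ihp ihq =>
    rw [done_star] at h
    exact .starR (ihq h)

theorem cl_step {σ : V → Proc A} {p p' : Proc (A ⊕ V)} {b : A} (h : Step p (Sum.inl b) p') :
    Step (cl σ p) b (cl σ p') := by
  induction p generalizing p' with
  | act l => exact absurd h step_act
  | delta => exact absurd h step_delta
  | add p q ihp ihq =>
    rw [step_add] at h
    rcases h with h | h
    · exact .addL (ihp h)
    · exact .addR (ihq h)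
  | mul p q ihp _ =>
    rw [step_mul] at h
    rcases h with ⟨r, h, rfl⟩ | ⟨h, rfl⟩
    · exact .mulL (ihp h)
    · exact .mulR (cl_done h)
  | star p q ihp ihq =>
    rw [step_star] at h
    rcases h with ⟨r, h, rfl⟩ | ⟨h, rfl⟩ | h
    · exact .starL (ihp h)
    · exact .starD (cl_done h)
    · exact .starR (ihq h)

/-- the coding substitution -/
def cs : V → Proc A := fun x => code a₀ (k x)

theorem cl_done_var {p : Proc (A ⊕ V)} {x : V} (h : Done p (Sum.inr x)) :
    Step (cl (cs a₀ k) p) a₀ (sig a₀ (k x)) := by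
  induction p with
  | act l =>
    rw [done_act] at h
    subst h
    exact code_step _ _
  | delta => exact absurd h done_delta
  | add p q ihp ihq =>
    rw [done_add] at h
    rcases h with h | h
    · exact .addL (ihp h)
    · exact .addR (ihq h)
  | mul p q _ _ => exact absurd h done_mul
  | star p q ihp ihq =>
    rw [done_star] at h
    exact .starR (ihq h)

theorem cl_step_var {p p' : Proc (A ⊕ V)} {x : V} (h : Step p (Sum.inr x) p') :
    ∃ q, Step (cl (cs a₀ k) p) a₀ q ∧
      Bisimilar q (.mul (sig a₀ (k x)) (cl (cs a₀ k) p')) := by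
  induction p generalizing p' with
  | act l => exact absurd h step_act
  | delta => exact absurd h step_delta
  | add p q ihp ihq =>
    rw [step_add] at h
    rcases h with h | h
    · obtain ⟨r, hr, hb⟩ := ihp h
      exact ⟨r, .addL hr, hb⟩
    · obtain ⟨r, hr, hb⟩ := ihq h
      exact ⟨r, .addR hr, hb⟩
  | mul p q ihp _ =>
    rw [step_mul] at h
    rcases h with ⟨r, h, rfl⟩ | ⟨h, rfl⟩
    · obtain ⟨r', hr', hb⟩ := ihp h
      exact ⟨_, .mulL hr', (hb.mul (Bisimilar.refl _)).trans (bisim_mul_assoc _ _ _)⟩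
    · exact ⟨_, .mulL (cl_done_var a₀ k h), Bisimilar.refl _⟩
  | star p q ihp ihq =>
    rw [step_star] at h
    rcases h with ⟨r, h, rfl⟩ | ⟨h, rfl⟩ | h
    · obtain ⟨r', hr', hb⟩ := ihp h
      exact ⟨_, .starL hr', (hb.mul (Bisimilar.refl _)).trans (bisim_mul_assoc _ _ _)⟩
    · exact ⟨_, .starL (cl_done_var a₀ k h), Bisimilar.refl _⟩
    · obtain ⟨r, hr, hb⟩ := ihq h
      exact ⟨r, .starR hr, hb⟩

theorem done_cl {p : Proc (A ⊕ V)} {b : A} (h : Done (cl (cs a₀ k) p) b) :
    Done p (Sum.inl b) := by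
  induction p with
  | act l =>
    rcases l with a | x
    · simp only [cl] at h
      rw [done_act] at h
      subst h
      exact .act _
    · exact absurd h done_mul
  | delta => exact absurd h done_delta
  | add p q ihp ihq =>
    simp only [cl] at h
    rw [done_add] at h
    rcases h with h | h
    · exact .addL (ihp h)
    · exact .addR (ihq h)
  | mul p q _ _ => exact absurd h done_mul
  | star p q ihp ihq =>
    simp only [cl] at h
    rw [done_star] at h
    exact .starR (ihq h)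

theorem step_cl {p : Proc (A ⊕ V)} {b : A} {q : Proc A} (h : Step (cl (cs a₀ k) p) b q) :
    (∃ p', Step p (Sum.inl b) p' ∧ q = cl (cs a₀ k) p') ∨
    (b = a₀ ∧ ∃ x p', Step p (Sum.inr x) p' ∧
      Bisimilar q (.mul (sig a₀ (k x)) (cl (cs a₀ k) p'))) ∨
    (b = a₀ ∧ ∃ x, Done p (Sum.inr x) ∧ q = sig a₀ (k x)) := by
  induction p generalizing q with
  | act l =>
    rcases l with a | x
    · simp only [cl] at h
      exact absurd h step_act
    · simp only [cl, cs] at h
      obtain ⟨rfl, rfl⟩ := step_code h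
      exact Or.inr (Or.inr ⟨rfl, x, .act _, rfl⟩)
  | delta => exact absurd h step_delta
  | add p q ihp ihq =>
    simp only [cl] at h
    rw [step_add] at h
    rcases h with h | h
    · rcases ihp h with ⟨p', h1, h2⟩ | ⟨rfl, x, p', h1, h2⟩ | ⟨rfl, x, h1, h2⟩
      · exact Or.inl ⟨p', .addL h1, h2⟩
      · exact Or.inr (Or.inl ⟨rfl, x, p', .addL h1, h2⟩)
      · exact Or.inr (Or.inr ⟨rfl, x, .addL h1, h2⟩)
    · rcases ihq h with ⟨p', h1, h2⟩ | ⟨rfl, x, p', h1, h2⟩ | ⟨rfl, x, h1, h2⟩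
      · exact Or.inl ⟨p', .addR h1, h2⟩
      · exact Or.inr (Or.inl ⟨rfl, x, p', .addR h1, h2⟩)
      · exact Or.inr (Or.inr ⟨rfl, x, .addR h1, h2⟩)
  | mul p q ihp ihq =>
    simp only [cl] at h
    rw [step_mul] at h
    rcases h with ⟨r, h, rfl⟩ | ⟨h, rfl⟩
    · rcases ihp h with ⟨p', h1, rfl⟩ | ⟨rfl, x, p', h1, h2⟩ | ⟨rfl, x, h1, rfl⟩
      · exact Or.inl ⟨_, .mulL h1, rfl⟩
      · exact Or.inr (Or.inl ⟨rfl, x, _, .mulL h1,
          (h2.mul (Bisimilar.refl _)).trans (bisim_mul_assoc _ _ _)⟩)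
      · exact Or.inr (Or.inl ⟨rfl, x, _, .mulR h1, Bisimilar.refl _⟩)
    · exact Or.inl ⟨_, .mulR (done_cl a₀ k h), rfl⟩
  | star p q ihp ihq =>
    simp only [cl] at h
    rw [step_star] at h
    rcases h with ⟨r, h, rfl⟩ | ⟨h, rfl⟩ | h
    · rcases ihp h with ⟨p', h1, rfl⟩ | ⟨rfl, x, p', h1, h2⟩ | ⟨rfl, x, h1, rfl⟩
      · exact Or.inl ⟨_, .starL h1, rfl⟩
      · exact Or.inr (Or.inl ⟨rfl, x, _, .starL h1,
          (h2.mul (Bisimilar.refl _)).trans (bisim_mul_assoc _ _ _)⟩)
      · exact Or.inr (Or.inl ⟨rfl, x, _, .starD h1, Bisimilar.refl _⟩)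
    · exact Or.inl ⟨_, .starD (done_cl a₀ k h), rfl⟩
    · rcases ihq h with ⟨p', h1, h2⟩ | ⟨rfl, x, p', h1, h2⟩ | ⟨rfl, x, h1, h2⟩
      · exact Or.inl ⟨p', .starR h1, h2⟩
      · exact Or.inr (Or.inl ⟨rfl, x, p', .starR h1, h2⟩)
      · exact Or.inr (Or.inr ⟨rfl, x, .starR h1, h2⟩)

variable {a₀ k}

theorem sig_not_chain {n m : ℕ} : ¬ Bisimilar (sig a₀ n) (chain a₀ m) := by
  intro h
  exact done_chain (h.done (done_sig.2 rfl))

/-- if `(a^n δ + a) · q ~ a^m δ` (with `n > 0`) then `m = n` -/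
theorem sig_mul_chain {n m : ℕ} {q : Proc A} (hn : 0 < n)
    (h : Bisimilar (.mul (sig a₀ n) q) (chain a₀ m)) : m = n := by
  obtain ⟨n', rfl⟩ : ∃ n', n = n' + 1 := ⟨n - 1, by omega⟩
  obtain ⟨r, hr, hb⟩ := sig_mul_step (a := a₀) (k := n') (q := q)
  obtain ⟨r', hr', hb'⟩ := h.step hr
  obtain ⟨m', rfl, _, rfl⟩ := step_chain hr'
  rw [chain_inj (hb.symm.trans hb')]

/-- Descending along a chain: one step. -/
theorem chain_descend (hk : ∀ x, 0 < k x) {p : Proc (A ⊕ V)} {m : ℕ}
    (h : Bisimilar (cl (cs a₀ k) p) (chain a₀ (m + 1))) :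
    (∃ p', Step p (Sum.inl a₀) p' ∧ Bisimilar (cl (cs a₀ k) p') (chain a₀ m)) ∨
    ∃ x, m = k x := by
  obtain ⟨q, hq, hb⟩ := h.symm.step (chain_step a₀ m)
  rcases step_cl a₀ k hq with ⟨p', h1, rfl⟩ | ⟨_, x, p', h1, h2⟩ | ⟨_, x, h1, rfl⟩
  · exact Or.inl ⟨p', h1, hb.symm⟩
  · exact Or.inr ⟨x, sig_mul_chain (hk x) (h2.symm.trans hb.symm)⟩
  · exact absurd hb.symm sig_not_chain

/-- A residual among finitely many cannot simulate a long chain other than those created by
the coding. -/
theorem chain_bound (hk : ∀ x, 0 < k x) {X : Set (Proc (A ⊕ V))} (hXf : X.Finite)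
    (hX : Closed X) {p : Proc (A ⊕ V)} (hp : p ∈ X) {m : ℕ} (hm : X.ncard ≤ m)
    (h : Bisimilar (cl (cs a₀ k) p) (chain a₀ m)) :
    ∃ i x, i < X.ncard ∧ m = i + k x + 1 := by
  by_contra hcon
  push Not at hcon
  have hdesc : ∀ j, j ≤ X.ncard → ∃ r ∈ X, Bisimilar (cl (cs a₀ k) r) (chain a₀ (m - j)) := by
    intro j
    induction j with
    | zero => exact fun _ => ⟨p, hp, h⟩
    | succ j ih =>
      intro hj
      obtain ⟨r, hr, hb⟩ := ih (by omega)
      have hmj : m - j = (m - (j + 1)) + 1 := by omega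
      rw [hmj] at hb
      rcases chain_descend hk hb with ⟨p', h1, h2⟩ | ⟨x, hx⟩
      · exact ⟨p', hX _ hr _ _ h1, h2⟩
      · exact absurd (show m = j + k x + 1 by omega) (hcon j x (by omega))
  have : Nonempty (Proc (A ⊕ V)) := ⟨.delta⟩
  choose! f hfX hfb using hdesc
  have hinj : Set.InjOn f (Set.Iic X.ncard) := by
    intro i hi j hj hij
    have h1 := hfb i hi
    have h2 := hfb j hj
    rw [hij] at h1
    have h3 := chain_inj (h1.symm.trans h2)
    simp only [Set.mem_Iic] at hi hj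
    omega
  have hmaps : Set.MapsTo f (Set.Iic X.ncard) X := fun i hi => hfX i hi
  have hcard := Set.ncard_le_ncard_of_injOn f hmaps hinj hXf
  have : (Set.Iic X.ncard : Set ℕ).ncard = X.ncard + 1 := by
    rw [Set.ncard_eq_toFinset_card']
    simp
  omega

/-- No residual can simulate the chains used by the coding. -/
theorem not_chain {X : Set (Proc (A ⊕ V))} (hXf : X.Finite)
    (hX : Closed X) {f : V → ℕ} (hk : ∀ x, k x = (X.ncard + 2) * (f x + 1))
    {p : Proc (A ⊕ V)} (hp : p ∈ X) {x : V} {m : ℕ} (hm : k x = m + 1) :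
    ¬ Bisimilar (cl (cs a₀ k) p) (chain a₀ m) := by
  intro h
  have hkpos : ∀ x, 0 < k x := by
    intro x; rw [hk]; positivity
  have h1 : X.ncard + 2 ≤ k x := by
    rw [hk]; exact Nat.le_mul_of_pos_right _ (Nat.succ_pos _)
  obtain ⟨i, y, hi, hiy⟩ := chain_bound hkpos hXf hX hp (by omega) h
  rw [hk] at hm hiy
  -- `(N+2)(f x + 1) = i + (N+2)(f y + 1) + 2`
  have h2 : (X.ncard + 2) * (f x + 1) = (X.ncard + 2) * (f y + 1) + (i + 2) := by omega
  have h3 : (X.ncard + 2) ∣ (i + 2) := by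
    have h4 : (X.ncard + 2) ∣ (X.ncard + 2) * (f y + 1) + (i + 2) := by
      rw [← h2]; exact Dvd.intro _ rfl
    exact (Nat.dvd_add_right (Dvd.intro _ rfl)).1 h4
  have h5 := Nat.le_of_dvd (by omega) h3
  omega

theorem labels_finite {L : Type u} (p : Proc L) : (labels p).Finite := by
  induction p with
  | act l => exact Set.finite_singleton _
  | delta => exact Set.finite_empty
  | add p q ihp ihq => exact ihp.union ihq
  | mul p q ihp ihq => exact ihp.union ihq
  | star p q ihp ihq => exact ihp.union ihq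

/-- A successor of a residual is not a coding chain. -/
theorem succ_not_chain {X : Set (Proc (A ⊕ V))} (hXf : X.Finite)
    (hX : Closed X) {f : V → ℕ} (hk : ∀ x, k x = (X.ncard + 2) * (f x + 1))
    {p : Proc (A ⊕ V)} (hp : p ∈ X) {b : A} {q : Proc A} (hq : Step (cl (cs a₀ k) p) b q)
    {x : V} {m : ℕ} (hm : k x = m + 1) : ¬ Bisimilar q (chain a₀ m) := by
  intro h
  have hkpos : ∀ x, 0 < k x := by
    intro x; rw [hk]; positivity
  rcases step_cl a₀ k hq with ⟨p', h1, rfl⟩ | ⟨_, y, p', h1, h2⟩ | ⟨_, y, h1, rfl⟩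
  · exact not_chain hXf hX hk (hX _ hp _ _ h1) hm h
  · have h3 := sig_mul_chain (hkpos y) (h2.symm.trans h)
    -- `k x = k y + 1`
    rw [hk] at hm h3
    have h4 : (X.ncard + 2) * (f x + 1) = (X.ncard + 2) * (f y + 1) + 1 := by omega
    have h5 : (X.ncard + 2) ∣ 1 := by
      have h6 : (X.ncard + 2) ∣ (X.ncard + 2) * (f y + 1) + 1 := by
        rw [← h4]; exact Dvd.intro _ rfl
      exact (Nat.dvd_add_right (Dvd.intro _ rfl)).1 h6
    have h7 := Nat.le_of_dvd (by omega) h5
    omega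
  · exact sig_not_chain h

theorem reduction [Nonempty A] {t u : Term A V} (h : Valid t u) :
    Bisimilar t.hat u.hat := by
  classical
  obtain ⟨a₀⟩ := ‹Nonempty A›
  obtain ⟨X₁, hX₁f, ht, hX₁⟩ := exists_finite_closed (t.hat)
  obtain ⟨X₂, hX₂f, hu, hX₂⟩ := exists_finite_closed (u.hat)
  set X : Set (Proc (A ⊕ V)) := X₁ ∪ X₂ with hXdef
  have hXf : X.Finite := hX₁f.union hX₂f
  have hX : Closed X := by
    rintro r (hr | hr) l r' hs
    · exact Or.inl (hX₁ _ hr _ _ hs)
    · exact Or.inr (hX₂ _ hr _ _ hs)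
  -- an injective numbering of the relevant variables
  set W : Set V := {x | ∃ r ∈ X, Sum.inr x ∈ labels r} with hW
  have hWf : W.Finite := by
    have h1 : (⋃ r ∈ X, labels r).Finite := hXf.biUnion fun r _ => labels_finite r
    have h2 : ((Sum.inr : V → A ⊕ V) ⁻¹' (⋃ r ∈ X, labels r)).Finite :=
      h1.preimage Sum.inr_injective.injOn
    refine h2.subset ?_
    rintro x ⟨r, hr, hx⟩
    simp only [Set.mem_preimage, Set.mem_iUnion]
    exact ⟨r, hr, hx⟩
  obtain ⟨f, hf⟩ := Set.countable_iff_exists_injOn.1 hWf.countable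
  set k : V → ℕ := fun x => (X.ncard + 2) * (f x + 1) with hkdef
  have hk : ∀ x, k x = (X.ncard + 2) * (f x + 1) := fun x => rfl
  have hkpos : ∀ x, ∃ m, k x = m + 1 := by
    intro x
    refine ⟨k x - 1, ?_⟩
    have : 0 < k x := by rw [hk]; positivity
    omega
  have hkinj : ∀ x ∈ W, ∀ y ∈ W, k x = k y → x = y := by
    intro x hx y hy hxy
    rw [hk, hk] at hxy
    have := Nat.eq_of_mul_eq_mul_left (by omega : 0 < X.ncard + 2) hxy
    exact hf hx hy (by omega)
  refine ⟨fun r s => r ∈ X ∧ s ∈ X ∧ Bisimilar (cl (cs a₀ k) r) (cl (cs a₀ k) s), ⟨?_, ?_, ?_⟩,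
    Or.inl ht, Or.inr hu, ?_⟩
  · rintro r s ⟨hr, hs, hb⟩
    exact ⟨hs, hr, hb.symm⟩
  · rintro r s ⟨hr, hs, hb⟩ l r' hrr'
    rcases l with b | x
    · obtain ⟨q, hq, hbq⟩ := hb.step (cl_step (σ := cs a₀ k) hrr')
      rcases step_cl a₀ k hq with ⟨s', h1, rfl⟩ | ⟨rfl, y, s', h1, h2⟩ | ⟨rfl, y, h1, rfl⟩
      · exact ⟨s', h1, hX _ hr _ _ hrr', hX _ hs _ _ h1, hbq⟩
      · exfalso
        obtain ⟨m, hm⟩ := hkpos y
        rw [hm] at h2
        obtain ⟨c, hc, hcb⟩ := sig_mul_step (a := b) (k := m) (q := cl (cs b k) s')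
        obtain ⟨d, hd, hdb⟩ := (hbq.trans h2).symm.step hc
        exact succ_not_chain hXf hX hk (hX _ hr _ _ hrr') hd hm (hdb.symm.trans hcb)
      · exfalso
        obtain ⟨m, hm⟩ := hkpos y
        rw [hm] at hbq
        obtain ⟨d, hd, hdb⟩ := hbq.symm.step (sig_step b m)
        exact succ_not_chain hXf hX hk (hX _ hr _ _ hrr') hd hm hdb.symm
    · obtain ⟨q₁, hq₁, hbq₁⟩ := cl_step_var a₀ k hrr'
      obtain ⟨q, hq, hbq⟩ := hb.step hq₁
      have hbq' := hbq₁.symm.trans hbq
      obtain ⟨m, hm⟩ := hkpos x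
      rw [hm] at hbq'
      obtain ⟨c, hc, hcb⟩ := sig_mul_step (a := a₀) (k := m) (q := cl (cs a₀ k) r')
      obtain ⟨d, hd, hdb⟩ := hbq'.step hc
      have hdc : Bisimilar d (chain a₀ m) := hdb.symm.trans hcb
      rcases step_cl a₀ k hq with ⟨s', h1, rfl⟩ | ⟨_, y, s', h1, h2⟩ | ⟨_, y, h1, rfl⟩
      · exact absurd hdc (succ_not_chain hXf hX hk (hX _ hs _ _ h1) hd hm)
      · -- the labels agree
        have hyx : y = x := by
          obtain ⟨d', hd', hdb'⟩ := h2.step hd
          obtain ⟨_, h3⟩ := step_sig_mul hd'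
          rcases h3 with ⟨m', hm', h4⟩ | rfl
          · have h5 := chain_inj (h4.symm.trans (hdb'.symm.trans hdc))
            exact hkinj _ ⟨s, hs, h1.labels.1⟩ _ ⟨r, hr, hrr'.labels.1⟩ (by omega)
          · exact absurd (hdb'.symm.trans hdc)
              (not_chain hXf hX hk (hX _ hs _ _ h1) hm)
        subst hyx
        refine ⟨s', h1, hX _ hr _ _ hrr', hX _ hs _ _ h1, ?_⟩
        have hfin := hbq'.trans h2
        obtain ⟨z, hz, hzb⟩ := hfin.step
          (.mulR (done_sig.2 rfl) : Step (.mul (sig a₀ (m + 1)) (cl (cs a₀ k) r')) a₀ _)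
        obtain ⟨_, h3⟩ := step_sig_mul hz
        rcases h3 with ⟨m', hm', h4⟩ | rfl
        · exfalso
          have : m' = m := by omega
          subst this
          exact not_chain hXf hX hk (hX _ hr _ _ hrr') hm (hzb.trans h4)
        · exact hzb
      · exfalso
        have : Done (.mul (sig a₀ (m + 1)) (cl (cs a₀ k) r')) a₀ :=
          hbq'.symm.done (done_sig.2 rfl)
        exact done_mul this
  · rintro r s ⟨hr, hs, hb⟩ l hd
    rcases l with b | x
    · exact done_cl a₀ k (hb.done (cl_done hd))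
    · obtain ⟨q, hq, hbq⟩ := hb.step (cl_done_var a₀ k hd)
      obtain ⟨m, hm⟩ := hkpos x
      rw [hm] at hbq
      obtain ⟨d, hd', hdb⟩ := hbq.step (sig_step a₀ m)
      rcases step_cl a₀ k hq with ⟨s', h1, rfl⟩ | ⟨_, y, s', h1, h2⟩ | ⟨_, y, h1, rfl⟩
      · exact absurd hdb.symm (succ_not_chain hXf hX hk (hX _ hs _ _ h1) hd' hm)
      · exfalso
        exact done_mul ((hbq.trans h2).done (done_sig.2 rfl))
      · have hyx : y = x := by
          obtain ⟨m', hm', _, rfl⟩ := step_sig hd'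
          have h5 := chain_inj hdb
          exact hkinj _ ⟨s, hs, h1.labels⟩ _ ⟨r, hr, hd.labels⟩ (by omega)
        rwa [← hyx]
  · rw [cl_hat, cl_hat]
    exact h _

end Reduction

end Pool.Agent.H82.BPADelta
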