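import Mathlib
import Pool.Agent.H82.BPADelta.Reduction

set_option autoImplicit false

universe u v

open scoped Pointwise

namespace Pool.Agent.H82.BPADelta

section Alternating

open Equiv Equiv.Perm MulAction

/-- The rotation `i ↦ i + 1` -/
def rot (n : ℕ) : Perm (Fin (n + 4)) := finRotate (n + 4)

/-- The 3-cycle `0 ↦ 1 ↦ 2 ↦ 0` -/
def cyc (n : ℕ) : Perm (Fin (n + 4)) := swap 1 0 * swap 1 2

theorem rot_apply (n : ℕ) (i : Fin (n + 4)) : rot n i = i + 1 := by
  unfold rot
  exact finRotate_apply i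

theorem rot_inv_apply (n : ℕ) (i : Fin (n + 4)) : (rot n)⁻¹ (i + 1) = i := by
  rw [Perm.inv_eq_iff_eq, rot_apply]

theorem fin_ne (n : ℕ) : (1 : Fin (n + 4)) ≠ 0 ∧ (1 : Fin (n + 4)) ≠ 2 ∧ (0 : Fin (n + 4)) ≠ 2 := by
  have h2 : ((2 : Fin (n + 4)) : ℕ) = 2 := by
    show 2 % (n + 4) = 2
    exact Nat.mod_eq_of_lt (by omega)
  have h1 : ((1 : Fin (n + 4)) : ℕ) = 1 := by
    rw [Fin.val_one]
  have h0 : ((0 : Fin (n + 4)) : ℕ) = 0 := rfl
  refine ⟨?_, ?_, ?_⟩
  · rw [Ne, Fin.ext_iff, h1, h0]; omega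
  · rw [Ne, Fin.ext_iff, h1, h2]; omega
  · rw [Ne, Fin.ext_iff, h0, h2]; omega

theorem cyc_zero (n : ℕ) : cyc n 0 = 1 := by
  obtain ⟨h1, h2, h3⟩ := fin_ne n
  rw [cyc, Perm.mul_apply, swap_apply_of_ne_of_ne h1.symm h3, swap_apply_right]

theorem cyc_one (n : ℕ) : cyc n 1 = 2 := by
  obtain ⟨h1, h2, h3⟩ := fin_ne n
  rw [cyc, Perm.mul_apply, swap_apply_left, swap_apply_of_ne_of_ne h2.symm h3.symm]

theorem cyc_two (n : ℕ) : cyc n 2 = 0 := by
  rw [cyc, Perm.mul_apply, swap_apply_right, swap_apply_left]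

theorem cyc_of_ne (n : ℕ) {i : Fin (n + 4)} (h0 : i ≠ 0) (h1 : i ≠ 1) (h2 : i ≠ 2) :
    cyc n i = i := by
  rw [cyc, Perm.mul_apply, swap_apply_of_ne_of_ne h1 h2, swap_apply_of_ne_of_ne h1 h0]

theorem cyc_isThreeCycle (n : ℕ) : (cyc n).IsThreeCycle := by
  obtain ⟨h1, h2, h3⟩ := fin_ne n
  exact isThreeCycle_swap_mul_swap_same h1 h2 h3

theorem cyc_mem (n : ℕ) : cyc n ∈ alternatingGroup (Fin (n + 4)) :=
  (cyc_isThreeCycle n).mem_alternatingGroup

theorem rot_mem {n : ℕ} (hn : (n + 4).Prime) : rot n ∈ alternatingGroup (Fin (n + 4)) := by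
  have hodd : Odd (n + 4) := hn.odd_of_ne_two (by omega)
  obtain ⟨m, hm⟩ := hodd
  rw [mem_alternatingGroup, rot, sign_finRotate]
  rw [hm]
  simp

theorem closure_eq_alternating {n : ℕ} (hn : (n + 4).Prime) :
    Subgroup.closure {rot n, cyc n} = alternatingGroup (Fin (n + 4)) := by
  apply le_antisymm
  · rw [Subgroup.closure_le]
    rintro g (rfl | rfl)
    · exact rot_mem hn
    · exact cyc_mem n
  · have hrot : rot n ∈ Subgroup.closure {rot n, cyc n} :=
      Subgroup.subset_closure (Or.inl rfl)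
    have hcyc : cyc n ∈ Subgroup.closure {rot n, cyc n} :=
      Subgroup.subset_closure (Or.inr rfl)
    have hpre : IsPretransitive (Subgroup.closure {rot n, cyc n}) (Fin (n + 4)) := by
      constructor
      intro i j
      have hc : (rot n).IsCycle := isCycle_finRotate
      have hi : rot n i ≠ i := by
        rw [rot_apply]
        intro h
        simp at h
      have hj : rot n j ≠ j := by
        rw [rot_apply]
        intro h
        simp at h
      obtain ⟨k, hk⟩ := hc.sameCycle hi hj
      exact ⟨⟨(rot n) ^ k, Subgroup.zpow_mem _ hrot k⟩, hk⟩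
    have hprim : IsPreprimitive (Subgroup.closure {rot n, cyc n}) (Fin (n + 4)) := by
      apply IsPreprimitive.of_prime_card
      simpa using hn
    exact alternatingGroup_le_of_isPreprimitive_of_isThreeCycle_mem hprim
      (cyc_isThreeCycle n) hcyc

/-- The inverse rotation as an element of the alternating group. -/
def gx {n : ℕ} (hn : (n + 4).Prime) : alternatingGroup (Fin (n + 4)) :=
  ⟨(rot n)⁻¹, Subgroup.inv_mem _ (rot_mem hn)⟩

/-- The inverse 3-cycle as an element of the alternating group. -/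
def gy (n : ℕ) : alternatingGroup (Fin (n + 4)) :=
  ⟨(cyc n)⁻¹, Subgroup.inv_mem _ (cyc_mem n)⟩

theorem closure_gx_gy {n : ℕ} (hn : (n + 4).Prime) :
    Submonoid.closure {gx hn, gy n} = ⊤ := by
  have h1 : Subgroup.closure {gx hn, gy n} = ⊤ := by
    apply Subgroup.map_injective (alternatingGroup (Fin (n + 4))).subtype_injective
    rw [MonoidHom.map_closure, ← MonoidHom.range_eq_map, Subgroup.range_subtype, Set.image_pair]
    show Subgroup.closure {(rot n)⁻¹, (cyc n)⁻¹} = _
    refine Eq.trans ?_ (closure_eq_alternating hn)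
    apply le_antisymm
    · rw [Subgroup.closure_le]
      rintro g (rfl | rfl)
      · exact Subgroup.inv_mem _ (Subgroup.subset_closure (Or.inl rfl))
      · exact Subgroup.inv_mem _ (Subgroup.subset_closure (Or.inr rfl))
    · rw [Subgroup.closure_le]
      rintro g (rfl | rfl)
      · have := Subgroup.inv_mem _ (Subgroup.subset_closure
          (show (rot n)⁻¹ ∈ ({(rot n)⁻¹, (cyc n)⁻¹} : Set _) from Or.inl rfl))
        simpa using this
      · have := Subgroup.inv_mem _ (Subgroup.subset_closure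
          (show (cyc n)⁻¹ ∈ ({(rot n)⁻¹, (cyc n)⁻¹} : Set _) from Or.inr rfl))
        simpa using this
  rw [← Subgroup.closure_toSubmonoid_of_finite, h1]
  rfl

/-- Proper subgroups of the alternating group of degree `m ≥ 5` have index at least `m`. -/
theorem index_alternating {m : ℕ} (hm : 5 ≤ m) (H : Subgroup (alternatingGroup (Fin m)))
    (hH : H.index < m) : H = ⊤ := by
  have hsimple : IsSimpleGroup (alternatingGroup (Fin m)) :=
    alternatingGroup.isSimpleGroup (by simpa using hm)
  rcases hsimple.eq_bot_or_eq_top_of_normal H.normalCore inferInstance with h | h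
  · exfalso
    rw [Subgroup.normalCore_eq_ker, MonoidHom.ker_eq_bot_iff] at h
    have h1 := Nat.card_le_card_of_injective _ h
    have : Nontrivial (Fin m) := Fin.nontrivial_iff_two_le.2 (by omega)
    have h2 : 2 * Nat.card (alternatingGroup (Fin m)) = m.factorial := by
      rw [two_mul_nat_card_alternatingGroup, Nat.card_perm, Nat.card_fin]
    rw [Nat.card_perm, ← Subgroup.index_eq_card] at h1
    have h3 : (H.index).factorial ≤ (m - 1).factorial := Nat.factorial_le (by omega)
    have h4 : m.factorial = m * (m - 1).factorial := by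
      rw [← Nat.mul_factorial_pred (by omega)]
    have h5 : 0 < (m - 1).factorial := Nat.factorial_pos _
    have h6 : 5 * (m - 1).factorial ≤ m * (m - 1).factorial := Nat.mul_le_mul_right _ hm
    omega
  · have := H.normalCore_le
    rw [h] at this
    exact top_le_iff.1 this

end Alternating

end Pool.Agent.H82.BPADelta
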