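import Mathlib
import Pool.Agent.H82.BPADelta.Alt

set_option autoImplicit false

universe u v

open scoped Pointwise

namespace Pool.Agent.H82.BPADelta

section Witness

variable {A : Type u} {V : Type v}

/-- `rr 0 = y * x`, `rr (n+1) = y * (x · rr n)` -/
def rr (x y : Term A V) : ℕ → Term A V
  | 0 => .star y x
  | n + 1 => .star y (.mul x (rr x y n))

/-- the loop body `(x+y)·((x+y)·(y + x·rr n))` -/
def body (x y : Term A V) (n : ℕ) : Term A V :=
  .mul (.add x y) (.mul (.add x y) (.add y (.mul x (rr x y n))))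

theorem valid_witness (x y : Term A V) (n : ℕ) :
    Valid (.star (.add x y) .delta) (.star (body x y n) .delta) := by
  intro σ
  simp only [Term.close]
  set P := x.close σ with hP
  set Q := y.close σ with hQ
  set F : Proc A := .star (.add P Q) .delta with hF
  -- `F ~ (P+Q)·F`
  have hfF : Bisimilar (.mul (.add P Q) F) F :=
    ((bisim_star (.add P Q) .delta).trans (bisim_add_delta _)).symm
  have hsum : Bisimilar F (.add (.mul Q F) (.mul P F)) :=
    hfF.symm.trans ((bisim_add_mul P Q F).trans (bisim_add_comm _ _))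
  have hrr : ∀ m, Bisimilar (.mul ((rr x y m).close σ) F) F := by
    intro m
    induction m with
    | zero =>
      simp only [rr, Term.close]
      exact (bisim_star_mul _ _ _).trans (bisim_rsp hsum).symm
    | succ m ih =>
      simp only [rr, Term.close]
      refine (bisim_star_mul _ _ _).trans (bisim_rsp (hsum.trans ?_)).symm
      refine (Bisimilar.refl _).add ?_
      exact (((bisim_mul_assoc _ _ _).trans ((Bisimilar.refl _).mul ih))).symm
  have hg : Bisimilar (.mul (.add Q (.mul P ((rr x y n).close σ))) F) F := by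
    refine (bisim_add_mul _ _ _).trans ?_
    refine Bisimilar.trans ?_ hsum.symm
    exact (Bisimilar.refl _).add ((bisim_mul_assoc _ _ _).trans ((Bisimilar.refl _).mul (hrr n)))
  have hbody : Bisimilar (.mul ((body x y n).close σ) F) F := by
    simp only [body, Term.close]
    refine (bisim_mul_assoc _ _ _).trans ?_
    refine ((Bisimilar.refl _).mul ?_).trans hfF
    refine (bisim_mul_assoc _ _ _).trans ?_
    exact ((Bisimilar.refl _).mul hg).trans hfF
  exact bisim_rsp (hbody.symm.trans (bisim_add_delta _).symm)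

end Witness

section ModelEq

variable {A : Type u} {V : Type v} {G : Type} [Group G]

/-- interpretation of the labels -/
def ee (ρ : V → Set G × Prop) : A ⊕ V → Set G := Sum.elim (fun _ => 1) (fun x => (ρ x).1)

/-- interpretation of the labels, second component -/
def ww (ρ : V → Set G × Prop) : A ⊕ V → Prop := Sum.elim (fun _ => False) (fun x => (ρ x).2)

/-- value of an open term in the model -/
def val (ρ : V → Set G × Prop) (t : Term A V) : Set G × Prop :=
  (tval (ee ρ) t.hat, lval (ee ρ) (ww ρ) t.hat)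

theorem val_subst (ρ : V → Set G × Prop) (σ : V → Term A V) (t : Term A V) :
    val ρ (t.subst σ) = val (fun x => val ρ (σ x)) t := by
  induction t with
  | var x => rfl
  | act a => rfl
  | delta => rfl
  | add s t ihs iht =>
    simp only [val, Prod.mk.injEq, Term.subst, Term.hat, tval, lval] at ihs iht ⊢
    rw [ihs.1, ihs.2, iht.1, iht.2]
    exact ⟨rfl, rfl⟩
  | mul s t ihs iht =>
    simp only [val, Prod.mk.injEq, Term.subst, Term.hat, tval, lval] at ihs iht ⊢
    rw [ihs.1, ihs.2, iht.1, iht.2]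
    exact ⟨rfl, rfl⟩
  | star s t ihs iht =>
    simp only [val, Prod.mk.injEq, Term.subst, Term.hat, tval, lval] at ihs iht ⊢
    rw [ihs.1, ihs.2, iht.1, iht.2]
    exact ⟨rfl, rfl⟩

theorem val_add (ρ : V → Set G × Prop) (s t : Term A V) :
    val ρ (.add s t) = ((val ρ s).1 ∪ (val ρ t).1, (val ρ s).2 ∨ (val ρ t).2) := rfl

theorem val_mul (ρ : V → Set G × Prop) (s t : Term A V) :
    val ρ (.mul s t) = ((val ρ s).1 * (val ρ t).1,
      (val ρ s).2 ∨ ((val ρ s).1.Nonempty ∧ (val ρ t).2)) := rfl

theorem val_star (ρ : V → Set G × Prop) (s t : Term A V) :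
    val ρ (.star s t) = ((Submonoid.closure (val ρ s).1 : Set G) * (val ρ t).1,
      (val ρ s).2 ∨ (val ρ t).2 ∨ Submonoid.closure (val ρ s).1 = ⊤) := rfl

/-- The model satisfies every equation derivable from equations it satisfies. -/
theorem derivable_sound {E : Set (Term A V × Term A V)}
    (hE : ∀ e ∈ E, ∀ ρ : V → Set G × Prop, val ρ e.1 = val ρ e.2) {t u : Term A V}
    (h : Derivable E t u) : ∀ ρ : V → Set G × Prop, val ρ t = val ρ u := by
  induction h with
  | ax h => exact hE _ h
  | subst σ _ ih =>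
    intro ρ
    rw [val_subst, val_subst]
    exact ih _
  | refl t => intro ρ; rfl
  | symm _ ih => intro ρ; exact (ih ρ).symm
  | trans _ _ ih₁ ih₂ => intro ρ; exact (ih₁ ρ).trans (ih₂ ρ)
  | add _ _ ih₁ ih₂ => intro ρ; rw [val_add, val_add, ih₁, ih₂]
  | mul _ _ ih₁ ih₂ => intro ρ; rw [val_mul, val_mul, ih₁, ih₂]
  | star _ _ ih₁ ih₂ => intro ρ; rw [val_star, val_star, ih₁, ih₂]

theorem labels_hat (t : Term A V) (x : V) : Sum.inr x ∈ labels t.hat ↔ x ∈ t.vars := by
  induction t with
  | var y =>
    simp only [Term.hat, labels, Term.vars, Set.mem_singleton_iff, Sum.inr.injEq]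
  | act a => simp [Term.hat, labels, Term.vars]
  | delta => simp [Term.hat, labels, Term.vars]
  | add s t ihs iht => simp only [Term.hat, labels, Term.vars, Set.mem_union, ihs, iht]
  | mul s t ihs iht => simp only [Term.hat, labels, Term.vars, Set.mem_union, ihs, iht]
  | star s t ihs iht => simp only [Term.hat, labels, Term.vars, Set.mem_union, ihs, iht]

variable [Finite G] [Nontrivial G]

/-- The model satisfies every valid equation in at most one variable (perfect group). -/
theorem holds_of_onevar [Nonempty A] (hperf : commutator G = ⊤) {t u : Term A V}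
    (h : Valid t u) (hv : ¬ Multivariable (t, u)) (ρ : V → Set G × Prop) : val ρ t = val ρ u := by
  classical
  have hb := reduction h
  rw [Multivariable, Set.not_nontrivial_iff] at hv
  have key : ∃ (E : Set G) (c : A ⊕ V → ℕ), ∀ l, (l ∈ labels t.hat ∨ l ∈ labels u.hat) →
      ee ρ l = E ^ c l := by
    by_cases hex : ∃ x, x ∈ t.vars ∪ u.vars
    · obtain ⟨x, hx⟩ := hex
      refine ⟨(ρ x).1, Sum.elim (fun _ => 0) (fun _ => 1), ?_⟩
      rintro (a | y) hl
      · simp [ee]
      · rw [labels_hat, labels_hat] at hl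
        have : y = x := hv hl hx
        subst this
        simp [ee]
    · refine ⟨∅, fun _ => 0, ?_⟩
      rintro (a | y) hl
      · simp [ee]
      · rw [labels_hat, labels_hat] at hl
        exact absurd ⟨y, hl⟩ hex
  obtain ⟨E, c, hc⟩ := key
  refine Prod.ext hb.tval_eq ?_
  simp only [val]
  rw [lval_iff_good, lval_iff_good]
  exact propext ⟨Good.bisim_pow hb hperf (fun l hl => hc l (Or.inl hl)),
    Good.bisim_pow hb.symm hperf (fun l hl => hc l (Or.inr hl))⟩

/-- The model satisfies every valid equation with few residuals. -/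
theorem holds_of_small [Nonempty A] {t u : Term A V} (h : Valid t u)
    {X Y : Set (Proc (A ⊕ V))} (hXf : X.Finite) (hYf : Y.Finite) (ht : t.hat ∈ X)
    (hu : u.hat ∈ Y) (hX : Closed X) (hY : Closed Y)
    (hidx : ∀ H : Subgroup G, H.index ≤ max X.ncard Y.ncard → H = ⊤) (ρ : V → Set G × Prop) :
    val ρ t = val ρ u := by
  have hb := reduction h
  refine Prod.ext hb.tval_eq ?_
  simp only [val]
  rw [lval_iff_good, lval_iff_good]
  exact propext ⟨Good.bisim_small hb hYf hu hY (fun H hH => hidx H (hH.trans (le_max_right _ _))),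
    Good.bisim_small hb.symm hXf ht hX (fun H hH => hidx H (hH.trans (le_max_left _ _)))⟩

end ModelEq

section Fail

variable {A : Type u} {V : Type v}

open Equiv.Perm

theorem gx_add_one {n : ℕ} (hn : (n + 4).Prime) (i : Fin (n + 4)) :
    (gx hn : Equiv.Perm (Fin (n + 4))) (i + 1) = i := rot_inv_apply n i

theorem gy_fix (n : ℕ) {i : Fin (n + 4)} (h0 : i ≠ 0) (h1 : i ≠ 1) (h2 : i ≠ 2) :
    (gy n : Equiv.Perm (Fin (n + 4))) i = i := by
  show (cyc n)⁻¹ i = i
  rw [Equiv.Perm.inv_eq_iff_eq, cyc_of_ne n h0 h1 h2]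

theorem gy_zero (n : ℕ) : (gy n : Equiv.Perm (Fin (n + 4))) 0 = 2 := by
  show (cyc n)⁻¹ 0 = 2
  rw [Equiv.Perm.inv_eq_iff_eq, cyc_two n]

theorem gy_two (n : ℕ) : (gy n : Equiv.Perm (Fin (n + 4))) 2 = 1 := by
  show (cyc n)⁻¹ 2 = 1
  rw [Equiv.Perm.inv_eq_iff_eq, cyc_one n]

theorem gy_one (n : ℕ) : (gy n : Equiv.Perm (Fin (n + 4))) 1 = 0 := by
  show (cyc n)⁻¹ 1 = 0
  rw [Equiv.Perm.inv_eq_iff_eq, cyc_zero n]

theorem fail_witness {n : ℕ} (hn : (n + 4).Prime) {x y : V} (hxy : x ≠ y) :
    ∃ ρ : V → Set (alternatingGroup (Fin (n + 4))) × Prop,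
      val ρ (.star (.add (.var x) (.var y)) .delta : Term A V) ≠
        val ρ (.star (body (.var x) (.var y) n) .delta : Term A V) := by
  classical
  let ρ : V → Set (alternatingGroup (Fin (n + 4))) × Prop := fun z =>
    if z = x then ({gx hn}, False) else ({gy n}, False)
  have hx : ρ x = ({gx hn}, False) := by simp [ρ]
  have hy : ρ y = ({gy n}, False) := by simp [ρ, hxy.symm]
  have vx : val ρ (.var x : Term A V) = ({gx hn}, False) := hx
  have vy : val ρ (.var y : Term A V) = ({gy n}, False) := hy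
  have vd : val ρ (.delta : Term A V) = (∅, False) := rfl
  -- the last point
  set last : Fin (n + 4) := Fin.last (n + 3) with hlast
  have hlast1 : last + 1 = 0 := by rw [hlast]; exact Fin.last_add_one _
  have gx0 : (gx hn : Equiv.Perm (Fin (n + 4))) 0 = last := by
    rw [← hlast1]; exact gx_add_one hn last
  have hvals : ∀ i : ℕ, 3 ≤ i → ∀ hi : i < n + 4, (⟨i, hi⟩ : Fin (n + 4)) ≠ 0 ∧
      (⟨i, hi⟩ : Fin (n + 4)) ≠ 1 ∧ (⟨i, hi⟩ : Fin (n + 4)) ≠ 2 := by
    intro i h3 hi
    have v2 : ((2 : Fin (n + 4)) : ℕ) = 2 := by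
      show 2 % (n + 4) = 2
      exact Nat.mod_eq_of_lt (by omega)
    have v1 : ((1 : Fin (n + 4)) : ℕ) = 1 := by
      rw [Fin.val_one]
    have v0 : ((0 : Fin (n + 4)) : ℕ) = 0 := rfl
    refine ⟨?_, ?_, ?_⟩
    · rw [Ne, Fin.ext_iff, v0]; simp only; omega
    · rw [Ne, Fin.ext_iff, v1]; simp only; omega
    · rw [Ne, Fin.ext_iff, v2]; simp only; omega
  -- the submonoid generated by `gy` fixes the points `≥ 3`
  have hclos : ∀ h ∈ Submonoid.closure ({gy n} : Set (alternatingGroup (Fin (n + 4)))),
      ∀ i : ℕ, 3 ≤ i → ∀ hi : i < n + 4,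
      (h : Equiv.Perm (Fin (n + 4))) ⟨i, hi⟩ = ⟨i, hi⟩ := by
    intro h hh i h3 hi
    induction hh using Submonoid.closure_induction with
    | mem g hg =>
      rw [Set.mem_singleton_iff] at hg
      subst hg
      obtain ⟨h0, h1, h2⟩ := hvals i h3 hi
      exact gy_fix n h0 h1 h2
    | one => rfl
    | mul a b _ _ ha hb =>
      rw [Subgroup.coe_mul, Equiv.Perm.mul_apply, hb, ha]
  have hyclos : Submonoid.closure ({gy n} : Set (alternatingGroup (Fin (n + 4)))) ≠ ⊤ := by
    intro htop
    have h1 : gx hn ∈ Submonoid.closure ({gy n} : Set (alternatingGroup (Fin (n + 4)))) := by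
      rw [htop]; trivial
    have h2 := hclos _ h1 (n + 3) (by omega) (by omega)
    have h3 : (⟨n + 3, by omega⟩ : Fin (n + 4)) = last := rfl
    rw [h3] at h2
    have h4 := congrArg (fun i => i) gx0
    have h5 : (gx hn : Equiv.Perm (Fin (n + 4))) last = (gx hn : Equiv.Perm (Fin (n + 4))) 0 := by
      rw [h2, gx0]
    have h6 := (gx hn : Equiv.Perm (Fin (n + 4))).injective h5
    have h7 := congrArg Fin.val h6
    simp [hlast] at h7
  -- values of `rr`
  have hrrL : ∀ m, ¬ (val ρ (rr (.var x) (.var y) m : Term A V)).2 := by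
    intro m
    induction m with
    | zero =>
      simp only [rr, val_star, vx, vy]
      rintro (h | h | h)
      · exact h
      · exact h
      · exact hyclos h
    | succ m ih =>
      simp only [rr, val_star, val_mul, vx, vy]
      rintro (h | (h | ⟨_, h⟩) | h)
      · exact h
      · exact h
      · exact ih h
      · exact hyclos h
  have hrrT : ∀ m, ∀ hm : m ≤ n, ∀ g ∈ (val ρ (rr (.var x) (.var y) m : Term A V)).1,
      (g : Equiv.Perm (Fin (n + 4))) 0 = ⟨n + 3 - m, by omega⟩ := by
    intro m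
    induction m with
    | zero =>
      intro hm g hg
      simp only [rr, val_star, vx, vy] at hg
      obtain ⟨h, hh, k, hk, rfl⟩ := hg
      rw [Set.mem_singleton_iff] at hk
      subst hk
      rw [Subgroup.coe_mul, Equiv.Perm.mul_apply, gx0]
      exact hclos h hh (n + 3) (by omega) (by omega)
    | succ m ih =>
      intro hm g hg
      simp only [rr, val_star, val_mul, vx, vy] at hg
      obtain ⟨h, hh, _, ⟨k, hk, g', hg', rfl⟩, rfl⟩ := hg
      rw [Set.mem_singleton_iff] at hk
      subst hk
      have h1 := ih (by omega) g' hg'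
      simp only [Subgroup.coe_mul, Equiv.Perm.mul_apply]
      rw [h1]
      have h2 : (⟨n + 3 - m, by omega⟩ : Fin (n + 4)) = ⟨n + 3 - (m + 1), by omega⟩ + 1 := by
        rw [Fin.ext_iff, Fin.val_add, Fin.val_one]
        simp only
        rw [Nat.mod_eq_of_lt (by omega)]
        omega
      rw [h2, gx_add_one hn]
      exact hclos h hh _ (by omega) (by omega)
  have three_eq : (⟨n + 3 - n, by omega⟩ : Fin (n + 4)) = 2 + 1 := by
    have v2 : ((2 : Fin (n + 4)) : ℕ) = 2 := by
      show 2 % (n + 4) = 2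
      exact Nat.mod_eq_of_lt (by omega)
    rw [Fin.ext_iff, Fin.val_add, Fin.val_one, v2]
    simp only
    rw [Nat.mod_eq_of_lt (by omega)]
    omega
  have two_eq : (2 : Fin (n + 4)) = 1 + 1 := by
    have v2 : ((2 : Fin (n + 4)) : ℕ) = 2 := by
      show 2 % (n + 4) = 2
      exact Nat.mod_eq_of_lt (by omega)
    rw [Fin.ext_iff, Fin.val_add, Fin.val_one, v2]
    rw [Nat.mod_eq_of_lt (by omega)]
  have one_eq : (1 : Fin (n + 4)) = 0 + 1 := by simp
  -- value of `y + x·rr n`
  have hs2 : ∀ g ∈ (val ρ (.add (.var y) (.mul (.var x) (rr (.var x) (.var y) n)) : Term A V)).1,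
      (g : Equiv.Perm (Fin (n + 4))) 0 = 2 := by
    intro g hg
    simp only [val_add, val_mul, vx, vy] at hg
    rcases hg with hg | ⟨k, hk, g', hg', rfl⟩
    · rw [Set.mem_singleton_iff] at hg
      rw [hg]; exact gy_zero n
    · rw [Set.mem_singleton_iff] at hk
      subst hk
      simp only [Subgroup.coe_mul, Equiv.Perm.mul_apply]
      rw [hrrT n le_rfl g' hg', three_eq, gx_add_one hn]
  have hs1 : ∀ g ∈ (val ρ (.mul (.add (.var x) (.var y)) (.add (.var y)
      (.mul (.var x) (rr (.var x) (.var y) n))) : Term A V)).1,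
      (g : Equiv.Perm (Fin (n + 4))) 0 = 1 := by
    intro g hg
    rw [val_mul] at hg
    obtain ⟨k, hk, g', hg', rfl⟩ := hg
    simp only [Subgroup.coe_mul, Equiv.Perm.mul_apply]
    rw [hs2 g' hg']
    simp only [val_add, vx, vy] at hk
    rcases hk with hk | hk
    · rw [Set.mem_singleton_iff] at hk
      rw [hk, two_eq, gx_add_one hn]
    · rw [Set.mem_singleton_iff] at hk
      rw [hk, gy_two]
  have hs0 : ∀ g ∈ (val ρ (body (.var x) (.var y) n : Term A V)).1,
      (g : Equiv.Perm (Fin (n + 4))) 0 = 0 := by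
    intro g hg
    rw [body, val_mul] at hg
    obtain ⟨k, hk, g', hg', rfl⟩ := hg
    simp only [Subgroup.coe_mul, Equiv.Perm.mul_apply]
    rw [hs1 g' hg']
    simp only [val_add, vx, vy] at hk
    rcases hk with hk | hk
    · rw [Set.mem_singleton_iff] at hk
      rw [hk, one_eq, gx_add_one hn]
    · rw [Set.mem_singleton_iff] at hk
      rw [hk, gy_one]
  have hbodyclos : Submonoid.closure (val ρ (body (.var x) (.var y) n : Term A V)).1 ≠ ⊤ := by
    intro htop
    have h1 : gx hn ∈ Submonoid.closure (val ρ (body (.var x) (.var y) n : Term A V)).1 := by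
      rw [htop]; trivial
    have h2 : ∀ g ∈ Submonoid.closure (val ρ (body (.var x) (.var y) n : Term A V)).1,
        (g : Equiv.Perm (Fin (n + 4))) 0 = 0 := by
      intro g hg
      induction hg using Submonoid.closure_induction with
      | mem g hg => exact hs0 g hg
      | one => rfl
      | mul a b _ _ ha hb =>
        rw [Subgroup.coe_mul, Equiv.Perm.mul_apply, hb, ha]
    have h3 := h2 _ h1
    rw [gx0] at h3
    have h7 := congrArg Fin.val h3
    simp [hlast] at h7
  have hbodyL : ¬ (val ρ (body (.var x) (.var y) n : Term A V)).2 := by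
    simp only [body, val_mul, val_add, vx, vy]
    rintro ((h | h) | ⟨_, ((h | h) | ⟨_, h | h | ⟨_, h⟩⟩)⟩)
    · exact h
    · exact h
    · exact h
    · exact h
    · exact h
    · exact h
    · exact hrrL n h
  refine ⟨ρ, ?_⟩
  intro heq
  have h2 : Submonoid.closure (val ρ (.add (.var x) (.var y) : Term A V)).1 = ⊤ := by
    rw [val_add, vx, vy]
    exact closure_gx_gy hn
  have h3 : (val ρ (.star (.add (.var x) (.var y)) .delta : Term A V)).2 := by
    rw [val_star]
    exact Or.inr (Or.inr h2)
  rw [heq, val_star] at h3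
  rcases h3 with h3 | h3 | h3
  · exact hbodyL h3
  · exact h3
  · exact hbodyclos h3

end Fail

section Main

variable {A : Type u} {V : Type v}

theorem main [Nonempty A] [Nontrivial V] (E : Set (Term A V × Term A V))
    (hE : IsAxiomatization E) : {e ∈ E | Multivariable e}.Infinite := by
  intro hfin
  obtain ⟨x, y, hxy⟩ := exists_pair_ne V
  have hval : ∀ e ∈ E, Valid e.1 e.2 := by
    intro e he
    rw [← hE]
    exact .ax he
  -- finite closed sets of residuals
  choose X hXf hXm hXc using fun t : Term A V => exists_finite_closed t.hat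
  -- a bound on the number of residuals in the multivariable axioms
  obtain ⟨N, hN⟩ : ∃ N, ∀ e ∈ {e ∈ E | Multivariable e},
      max (X e.1).ncard (X e.2).ncard ≤ N := by
    have := (hfin.image fun e => max (X e.1).ncard (X e.2).ncard).bddAbove
    obtain ⟨N, hN⟩ := this
    exact ⟨N, fun e he => hN ⟨e, he, rfl⟩⟩
  obtain ⟨p, hpN, hp⟩ := Nat.exists_infinite_primes (N + 5)
  obtain ⟨n, rfl⟩ : ∃ n, p = n + 4 := ⟨p - 4, by omega⟩
  have hcard : 5 ≤ Nat.card (Fin (n + 4)) := by
    rw [Nat.card_fin]; omega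
  have hsimple : IsSimpleGroup (alternatingGroup (Fin (n + 4))) :=
    alternatingGroup.isSimpleGroup hcard
  have hnt : Nontrivial (alternatingGroup (Fin (n + 4))) := hsimple.toNontrivial
  have hperf : commutator (alternatingGroup (Fin (n + 4))) = ⊤ :=
    commutator_alternatingGroup_eq_top hcard
  obtain ⟨ρ, hρ⟩ := fail_witness (A := A) hp hxy
  refine hρ (derivable_sound (E := E) ?_ ((hE _ _).2 (valid_witness _ _ n)) ρ)
  intro e he ρ'
  by_cases hm : Multivariable e
  · refine holds_of_small (hval e he) (hXf _) (hXf _) (hXm _) (hXm _) (hXc _) (hXc _) ?_ ρ'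
    intro H hH
    refine index_alternating (by omega) H ?_
    have := hN e ⟨he, hm⟩
    omega
  · exact holds_of_onevar hperf (hval e he) hm ρ'

end Main

end Pool.Agent.H82.BPADelta
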