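import Mathlib
import Pool.Agent.H82.BPADelta.Final

set_option autoImplicit false

universe u v

/-! Sanity checks for the definitions: bisimilarity is a congruence, validity is closed under
substitution, and equational axiomatizations exist (the set of all valid equations is one). -/

namespace Pool.Agent.H82.BPADelta

variable {A : Type u} {V : Type v}

theorem Bisimilar.star {p p' q q' : Proc A} (h₁ : Bisimilar p p') (h₂ : Bisimilar q q') :
    Bisimilar (.star p q) (.star p' q') := by
  apply bisim_rsp
  exact (bisim_star p q).trans ((h₁.mul (Bisimilar.refl _)).add h₂)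

theorem close_subst (τ : V → Proc A) (σ : V → Term A V) (t : Term A V) :
    (t.subst σ).close τ = t.close (fun x => (σ x).close τ) := by
  induction t with
  | var x => rfl
  | act a => rfl
  | delta => rfl
  | add s t ihs iht => simp only [Term.subst, Term.close, ihs, iht]
  | mul s t ihs iht => simp only [Term.subst, Term.close, ihs, iht]
  | star s t ihs iht => simp only [Term.subst, Term.close, ihs, iht]

/-- Every equation derivable from valid equations is valid. -/
theorem Derivable.valid {E : Set (Term A V × Term A V)} (hE : ∀ e ∈ E, Valid e.1 e.2)
    {t u : Term A V} (h : Derivable E t u) : Valid t u := by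
  induction h with
  | ax h => exact hE _ h
  | subst σ _ ih =>
    intro τ
    rw [close_subst, close_subst]
    exact ih _
  | refl t => exact fun _ => Bisimilar.refl _
  | symm _ ih => exact fun τ => (ih τ).symm
  | trans _ _ ih₁ ih₂ => exact fun τ => (ih₁ τ).trans (ih₂ τ)
  | add _ _ ih₁ ih₂ => exact fun τ => (ih₁ τ).add (ih₂ τ)
  | mul _ _ ih₁ ih₂ => exact fun τ => (ih₁ τ).mul (ih₂ τ)
  | star _ _ ih₁ ih₂ => exact fun τ => (ih₁ τ).star (ih₂ τ)

/-- The set of all valid equations is an equational axiomatization. -/
theorem isAxiomatization_valid : IsAxiomatization {e : Term A V × Term A V | Valid e.1 e.2} :=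
  fun _ _ => ⟨Derivable.valid fun _ h => h, fun h => .ax h⟩

end Pool.Agent.H82.BPADelta
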